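import Pool.Agent.Helper87.GurDefs

open UniformSpace

namespace Gur

universe u v w

section
variable {E : Type u} [AddCommGroup E] [Module ℝ E]

/-- The identity map as a linear equivalence. -/
def toPre (p : Seminorm ℝ E) : E ≃ₗ[ℝ] Pre p := LinearEquiv.refl ℝ E

theorem norm_toPre (p : Seminorm ℝ E) (x : E) : ‖toPre p x‖ = p x := rfl

/-- canonical map. -/
noncomputable def emb (p : Seminorm ℝ E) : E →ₗ[ℝ] X p :=
  (Completion.toComplL (𝕜 := ℝ) (E := Pre p)).toLinearMap ∘ₗ (toPre p).toLinearMap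

theorem norm_emb (p : Seminorm ℝ E) (x : E) : ‖emb p x‖ = p x := by
  show ‖((toPre p x : Pre p) : Completion (Pre p))‖ = p x
  rw [Completion.norm_coe, norm_toPre]

theorem dense_emb (p : Seminorm ℝ E) : DenseRange (emb p) :=
  Completion.denseRange_coe (α := Pre p)

end

/-- Two dense models with equivalent seminorms give isomorphic Banach spaces. -/
theorem iso_of_dense {E : Type u} [AddCommGroup E] [Module ℝ E]
    {F : Type v} [AddCommGroup F] [Module ℝ F]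
    {Y Z : Type*} [NormedAddCommGroup Y] [NormedSpace ℝ Y] [CompleteSpace Y]
    [NormedAddCommGroup Z] [NormedSpace ℝ Z] [CompleteSpace Z]
    (e : E ≃ₗ[ℝ] F) (f : E →ₗ[ℝ] Y) (g : F →ₗ[ℝ] Z) (hf : DenseRange f) (hg : DenseRange g)
    (C : ℝ) (h1 : ∀ v, ‖f v‖ ≤ C * ‖g (e v)‖) (h2 : ∀ v, ‖g (e v)‖ ≤ C * ‖f v‖) :
    Nonempty (Y ≃L[ℝ] Z) :=
  ⟨e.extend f g hf ⟨C, h2⟩ hg ⟨C, fun x => by simpa using h1 (e.symm x)⟩⟩

theorem X_iso {E : Type u} [AddCommGroup E] [Module ℝ E]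
    {F : Type v} [AddCommGroup F] [Module ℝ F] (p : Seminorm ℝ E) (q : Seminorm ℝ F)
    (e : E ≃ₗ[ℝ] F) (C : ℝ) (h1 : ∀ v, p v ≤ C * q (e v)) (h2 : ∀ v, q (e v) ≤ C * p v) :
    Nonempty (X p ≃L[ℝ] X q) := by
  refine iso_of_dense e (emb p) (emb q) (dense_emb p) (dense_emb q) C ?_ ?_
  · intro v; simpa [norm_emb] using h1 v
  · intro v; simpa [norm_emb] using h2 v

theorem X_iso_prod {E : Type u} [AddCommGroup E] [Module ℝ E]
    {F : Type v} [AddCommGroup F] [Module ℝ F] {H : Type w} [AddCommGroup H] [Module ℝ H]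
    (p : Seminorm ℝ E) (q : Seminorm ℝ F) (r : Seminorm ℝ H)
    (e : E ≃ₗ[ℝ] F × H) (C : ℝ) (h1 : ∀ v, p v ≤ C * max (q (e v).1) (r (e v).2))
    (h2 : ∀ v, q (e v).1 ≤ C * p v) (h3 : ∀ v, r (e v).2 ≤ C * p v) :
    Nonempty (X p ≃L[ℝ] X q × X r) := by
  refine iso_of_dense e (emb p) ((emb q).prodMap (emb r)) (dense_emb p) ?_ C ?_ ?_
  · exact (dense_emb q).prodMap (dense_emb r)
  · intro v; simpa [norm_emb, Prod.norm_def] using h1 v
  · intro v
    simp only [LinearMap.prodMap_apply, Prod.norm_def, norm_emb]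
    exact max_le (h2 v) (h3 v)

end Gur
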