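import Mathlib

/-! Definitions used in the statement on the isomorphism class of the Gurarii space. -/

namespace Gur

universe u

/-- `Pre p` is the real vector space `E` equipped with the seminorm `p`. -/
def Pre {E : Type u} [AddCommGroup E] [Module ℝ E] (_p : Seminorm ℝ E) : Type u := E

noncomputable instance {E : Type u} [AddCommGroup E] [Module ℝ E] (p : Seminorm ℝ E) :
    SeminormedAddCommGroup (Pre p) :=
  p.toAddGroupSeminorm.toSeminormedAddCommGroup

noncomputable instance {E : Type u} [AddCommGroup E] [Module ℝ E] (p : Seminorm ℝ E) :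
    NormedSpace ℝ (Pre p) where
  toModule := inferInstanceAs (Module ℝ E)
  norm_smul_le := fun a x => (map_smul_eq_mul p a x).le

/-- The Banach space attached to a seminorm `p` on `E`: the Hausdorff completion of `(E, p)`,
that is, the completion of the quotient of `E` by the null space of `p`. -/
abbrev X {E : Type u} [AddCommGroup E] [Module ℝ E] (p : Seminorm ℝ E) : Type u :=
  UniformSpace.Completion (Pre p)

/-- `G` is a Gurarii space: it is complete and separable, and for every `ε > 0`, every subspace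
`A` of `G` and every isometric embedding `g` of `A` into a finite-dimensional normed space `B`
there is a linear map `f : B → G` which changes norms by a factor of at most `1 + ε` and
satisfies `‖f (g a) - a‖ ≤ ε ‖a‖` for all `a ∈ A`. -/
structure IsGurarii (G : Type u) [NormedAddCommGroup G] [NormedSpace ℝ G] : Prop where
  complete : CompleteSpace G
  separable : TopologicalSpace.SeparableSpace G
  extend : ∀ ε : ℝ, 0 < ε → ∀ (A : Submodule ℝ G) (B : Type) [NormedAddCommGroup B]
    [NormedSpace ℝ B] [FiniteDimensional ℝ B] (g : A →ₗᵢ[ℝ] B),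
    ∃ f : B →ₗ[ℝ] G,
      (∀ b, (1 + ε)⁻¹ * ‖b‖ ≤ ‖f b‖ ∧ ‖f b‖ ≤ (1 + ε) * ‖b‖) ∧
      ∀ a : A, ‖f (g a) - (a : G)‖ ≤ ε * ‖a‖

/-- The inclusion of the rational vector space `V` of finitely supported rational sequences into
`c₀₀`, the real finitely supported sequences. -/
noncomputable def toR (v : ℕ →₀ ℚ) : ℕ →₀ ℝ := v.mapRange (fun q : ℚ => (q : ℝ)) Rat.cast_zero

/-- The set `P` of pseudonorms on `V`, a subset of the product space `V → ℝ`. -/
def PN : Set ((ℕ →₀ ℚ) → ℝ) :=
  {μ | (∀ x y, μ (x + y) ≤ μ x + μ y) ∧ ∀ (q : ℚ) (x : ℕ →₀ ℚ), μ (q • x) = |(q : ℝ)| * μ x}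

/-- The seminorm `p` on `c₀₀` extends `μ`; each `μ` in `P` has exactly one such extension
(proved as `Gur.exists_unique_ext`). -/
def IsExt (p : Seminorm ℝ (ℕ →₀ ℝ)) (μ : (ℕ →₀ ℚ) → ℝ) : Prop := ∀ v, p (toR v) = μ v

/-- The set `P_∞` of pseudonorms `μ` whose Banach space `X_μ` is infinite-dimensional. -/
def Pinf : Set ((ℕ →₀ ℚ) → ℝ) :=
  {μ | μ ∈ PN ∧ ∃ p, IsExt p μ ∧ ¬ FiniteDimensional ℝ (X p)}

/-- The set `B` of those `μ` in `P_∞` whose extension to `c₀₀` is a norm. -/
def Bset : Set ((ℕ →₀ ℚ) → ℝ) :=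
  {μ | μ ∈ Pinf ∧ ∃ p, IsExt p μ ∧ ∀ x, p x = 0 → x = 0}

/-- The isomorphism class of a Banach space `Z` in `I`, where `I` is `P_∞` or `B`: the set of
`μ` in `I` such that `X_μ` is linearly isomorphic (onto) to `Z`. -/
def isoClass (I : Set ((ℕ →₀ ℚ) → ℝ)) (Z : Type u) [NormedAddCommGroup Z] [NormedSpace ℝ Z] :
    Set I :=
  {μ | ∃ p, IsExt p μ.1 ∧ Nonempty (X p ≃L[ℝ] Z)}

end Gur
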