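import Pool.Agent.Helper87.GurTree

namespace Gur

open Finset

/-- coordinate functional as an element of the dual. -/
noncomputable def Sys.cD {ι : Type} (A : Sys ι) (t : ι) : StrongDual ℝ (Pre A.N) :=
  LinearMap.mkContinuous ((A.c t) ∘ₗ (toPre A.N).symm.toLinearMap) 1
    (by intro x; rw [one_mul]; exact A.le_N _ t)

theorem Sys.cD_apply {ι : Type} (A : Sys ι) (t : ι) (v : ι →₀ ℝ) :
    A.cD t (toPre A.N v) = A.c t v := rfl

/-- closed span of the coordinate functionals. -/
noncomputable def Sys.M {ι : Type} (A : Sys ι) : Submodule ℝ (StrongDual ℝ (Pre A.N)) :=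
  (Submodule.span ℝ (Set.range A.cD)).topologicalClosure

theorem Sys.cD_mem {ι : Type} (A : Sys ι) (t : ι) : A.cD t ∈ A.M :=
  Submodule.le_topologicalClosure _ (Submodule.subset_span ⟨t, rfl⟩)

open Classical in
/-- restriction to a set of indices. -/
noncomputable def fil {ι : Type} (S : Set ι) : (ι →₀ ℝ) →ₗ[ℝ] (ι →₀ ℝ) where
  toFun v := v.filter (· ∈ S)
  map_add' _ _ := Finsupp.filter_add
  map_smul' _ _ := Finsupp.filter_smul

theorem fil_mem {ι : Type} {S : Set ι} (v : ι →₀ ℝ) {s : ι} (h : s ∈ S) : fil S v s = v s := by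
  classical
  exact Finsupp.filter_apply_pos _ _ h

theorem fil_not {ι : Type} {S : Set ι} (v : ι →₀ ℝ) {s : ι} (h : s ∉ S) : fil S v s = 0 := by
  classical
  exact Finsupp.filter_apply_neg _ _ h

/-- `f` restricted to `S` is approximable. -/
def Good {ι : Type} (A : Sys ι) (f : StrongDual ℝ (Pre A.N)) (S : Set ι) : Prop :=
  ∃ h ∈ A.M, ∀ v : ι →₀ ℝ, h (toPre A.N v) = f (toPre A.N (fil S v))

theorem good_single {ι : Type} (A : Sys ι) (f : StrongDual ℝ (Pre A.N)) (t : ι) :
    Good A f {t} := by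
  classical
  refine ⟨f (toPre A.N (Finsupp.single t 1)) •
    (A.cD t - ∑ s ∈ (A.lam t).support, ((A.lam t s : ℚ) : ℝ) • A.cD s), ?_, ?_⟩
  · refine A.M.smul_mem _ (A.M.sub_mem (A.cD_mem t) (A.M.sum_mem fun s _ => ?_))
    exact A.M.smul_mem _ (A.cD_mem s)
  · intro v
    have h1 : fil {t} v = v t • Finsupp.single t (1 : ℝ) := by
      ext s
      rw [Finsupp.smul_apply, Finsupp.single_apply]
      by_cases hs : s = t
      · subst hs; rw [fil_mem _ (Set.mem_singleton _)]; simp
      · have hs' : ¬ t = s := fun h => hs h.symm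
        rw [fil_not _ (by simpa using hs)]; simp [hs']
    rw [h1, map_smul, map_smul]
    have h2 : (A.cD t - ∑ s ∈ (A.lam t).support, ((A.lam t s : ℚ) : ℝ) • A.cD s)
        (toPre A.N v) = v t := by
      simp only [sub_apply, _root_.sum_apply, smul_apply, Sys.cD_apply, smul_eq_mul]
      rw [A.c_apply t v]
      unfold Finsupp.sum
      ring
    rw [smul_apply, h2, smul_eq_mul, smul_eq_mul, mul_comm]

theorem good_union {ι : Type} (A : Sys ι) (f : StrongDual ℝ (Pre A.N)) (S1 S2 : Set ι)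
    (hd : Disjoint S1 S2) (h1 : Good A f S1) (h2 : Good A f S2) : Good A f (S1 ∪ S2) := by
  obtain ⟨g1, hg1, e1⟩ := h1
  obtain ⟨g2, hg2, e2⟩ := h2
  refine ⟨g1 + g2, A.M.add_mem hg1 hg2, fun v => ?_⟩
  have h3 : fil (S1 ∪ S2) v = fil S1 v + fil S2 v := by
    ext s
    rw [Finsupp.add_apply]
    by_cases a : s ∈ S1
    · have b : s ∉ S2 := Set.disjoint_left.mp hd a
      rw [fil_mem _ (Set.mem_union_left _ a), fil_mem _ a, fil_not _ b, add_zero]
    · rw [fil_not _ a, zero_add]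
      by_cases b : s ∈ S2
      · rw [fil_mem _ (Set.mem_union_right _ b), fil_mem _ b]
      · rw [fil_not _ (by simp [a, b]), fil_not _ b]
  rw [add_apply, e1, e2, h3, map_add, map_add]

theorem exists_near {E : Type*} [SeminormedAddCommGroup E] [NormedSpace ℝ E]
    (f : StrongDual ℝ E) (r : ℝ) (hr : r < ‖f‖) : ∃ x, ‖x‖ ≤ 1 ∧ r < f x := by
  rcases lt_or_ge r 0 with h | h
  · exact ⟨0, by simp, by simpa using h⟩
  · obtain ⟨x, hx⟩ := f.exists_mul_lt_of_lt_opNorm h hr
    have hx0 : ‖x‖ ≠ 0 := by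
      intro h0
      have := f.le_opNorm x
      rw [h0, mul_zero] at this hx
      exact absurd hx (not_lt.mpr this)
    have hxp : 0 < ‖x‖ := lt_of_le_of_ne (norm_nonneg x) (Ne.symm hx0)
    rcases le_total 0 (f x) with hs | hs
    · refine ⟨‖x‖⁻¹ • x, ?_, ?_⟩
      · rw [norm_smul, norm_inv, norm_norm, inv_mul_cancel₀ hx0]
      · rw [Real.norm_eq_abs, abs_of_nonneg hs] at hx
        rw [map_smul, smul_eq_mul, ← div_eq_inv_mul, lt_div_iff₀ hxp]
        exact hx
    · refine ⟨-(‖x‖⁻¹ • x), ?_, ?_⟩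
      · rw [norm_neg, norm_smul, norm_inv, norm_norm, inv_mul_cancel₀ hx0]
      · rw [Real.norm_eq_abs, abs_of_nonpos hs] at hx
        rw [map_neg, map_smul, smul_eq_mul, ← mul_neg, ← div_eq_inv_mul, lt_div_iff₀ hxp]
        exact hx

theorem norm_sum_le {ι I : Type} (A : Sys ι) (f : StrongDual ℝ (Pre A.N)) (S : I → Set ι)
    (K : ℝ)
    (hb : ∀ (F : Finset I) (w : I → (ι →₀ ℝ)), (∀ i ∈ F, A.N (w i) ≤ 1) →
      A.N (∑ i ∈ F, fil (S i) (w i)) ≤ K)
    (h : I → StrongDual ℝ (Pre A.N))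
    (he : ∀ i v, h i (toPre A.N v) = f (toPre A.N (fil (S i) v))) (F : Finset I) :
    ∑ i ∈ F, ‖h i‖ ≤ K * ‖f‖ := by
  refine le_of_forall_pos_le_add fun ε hε => ?_
  set e : ℝ := ε / (F.card + 1) with hedef
  have he0 : 0 < e := by positivity
  have hex : ∀ i, ∃ w : ι →₀ ℝ, A.N w ≤ 1 ∧ ‖h i‖ - e ≤ h i (toPre A.N w) := by
    intro i
    have h0 : ‖h i‖ - e < ‖h i‖ := by linarith
    obtain ⟨x, hx1, hx2⟩ := exists_near (h i) _ h0
    exact ⟨(toPre A.N).symm x, hx1, hx2.le⟩
  choose w hw1 hw2 using hex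
  have hu : A.N (∑ i ∈ F, fil (S i) (w i)) ≤ K := hb F w (fun i _ => hw1 i)
  have h1 : ∑ i ∈ F, (‖h i‖ - e) ≤ f (toPre A.N (∑ i ∈ F, fil (S i) (w i))) := by
    rw [map_sum, map_sum]
    exact Finset.sum_le_sum fun i _ => (hw2 i).trans (he i (w i)).le
  have h2 : f (toPre A.N (∑ i ∈ F, fil (S i) (w i))) ≤ ‖f‖ * K := by
    refine (le_abs_self _).trans ((f.le_opNorm _).trans ?_)
    exact mul_le_mul_of_nonneg_left hu (norm_nonneg f)
  have h3 : ∑ i ∈ F, (‖h i‖ - e) = ∑ i ∈ F, ‖h i‖ - F.card * e := by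
    rw [Finset.sum_sub_distrib, Finset.sum_const, nsmul_eq_mul]
  have h4 : (F.card : ℝ) * e ≤ ε := by
    have : (F.card : ℝ) * e ≤ (F.card + 1) * e :=
      mul_le_mul_of_nonneg_right (by linarith) he0.le
    refine this.trans (le_of_eq ?_)
    rw [hedef]
    field_simp
  rw [h3] at h1
  linarith

theorem good_iUnion {ι I : Type} (A : Sys ι) (f : StrongDual ℝ (Pre A.N)) (S : I → Set ι)
    (hd : ∀ i k, i ≠ k → Disjoint (S i) (S k)) (K : ℝ)
    (hb : ∀ (F : Finset I) (w : I → (ι →₀ ℝ)), (∀ i ∈ F, A.N (w i) ≤ 1) →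
      A.N (∑ i ∈ F, fil (S i) (w i)) ≤ K)
    (hg : ∀ i, Good A f (S i)) : Good A f (⋃ i, S i) := by
  choose h hM he using hg
  have key := norm_sum_le A f S K hb h he
  have hsum : Summable h := by
    refine Summable.of_norm ?_
    exact summable_of_sum_le (fun i => norm_nonneg _) key
  refine ⟨∑' i, h i, ?_, ?_⟩
  · refine (Submodule.isClosed_topologicalClosure _).mem_of_tendsto hsum.hasSum ?_
    exact Filter.Eventually.of_forall fun F => A.M.sum_mem fun i _ => hM i
  · intro v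
    have hev : ∀ x : Pre A.N, (∑' i, h i) x = ∑' i, h i x := fun x =>
      (ContinuousLinearMap.apply ℝ ℝ x).map_tsum hsum
    have hsingle : ∀ (U : Set ι) (a : ι) (b : ℝ), a ∈ U → fil U (Finsupp.single a b) =
        Finsupp.single a b := by
      classical
      intro U a b ha
      exact Finsupp.filter_single_of_pos _ ha
    have hsingle' : ∀ (U : Set ι) (a : ι) (b : ℝ), a ∉ U → fil U (Finsupp.single a b) = 0 := by
      classical
      intro U a b ha
      exact Finsupp.filter_single_of_neg _ ha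
    induction v using Finsupp.induction_linear with
    | zero => simp
    | add a b ha hb => rw [map_add, map_add, ha, hb, map_add, map_add, map_add]
    | single a b =>
      rw [hev]
      simp only [he]
      by_cases ha : ∃ i, a ∈ S i
      · obtain ⟨i, hi⟩ := ha
        rw [tsum_eq_single i]
        · rw [hsingle _ a b hi, hsingle _ a b (Set.mem_iUnion.mpr ⟨i, hi⟩)]
        · intro k hk
          have : a ∉ S k := Set.disjoint_left.mp (hd i k hk.symm) hi
          rw [hsingle' _ a b this, map_zero, map_zero]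
      · have h0 : ∀ i, a ∉ S i := fun i hi => ha ⟨i, hi⟩
        have h1 : ∀ i, fil (S i) (Finsupp.single a b) = 0 := fun i => hsingle' _ a b (h0 i)
        have h2 : fil (⋃ i, S i) (Finsupp.single a b) = 0 := hsingle' _ a b (by simpa using h0)
        simp only [h1, h2, map_zero, tsum_zero]

end Gur
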