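import Pool.Agent.Helper87.GurWf

namespace Gur

open Finset

/-- rows of the dyadic system. -/
noncomputable def dlam : List Bool → (List Bool →₀ ℚ)
  | [] => 0
  | _ :: l => Finsupp.single l 1

/-- The dyadic system. -/
noncomputable def dyad : Sys (List Bool) where
  lam := dlam
  rk := Encodable.encode
  inj := Encodable.encode_injective
  lt t s h := by
    cases t with
    | nil => exact absurd rfl h
    | cons b l =>
      have hs : s = l := by
        by_contra hc
        exact h (Finsupp.single_eq_of_ne hc)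
      subst hs
      refine encode_lt_of_suffix (List.suffix_cons b s) fun he => ?_
      have := congrArg List.length he
      simp at this
  le_one t := by
    show l1 (dlam t) ≤ 1
    cases t with
    | nil => show l1 0 ≤ 1; rw [l1_zero]; exact zero_le_one
    | cons b l => show l1 (Finsupp.single l 1) ≤ 1; rw [l1_single]; simp

theorem dyad_c_nil (v : List Bool →₀ ℝ) : dyad.c [] v = v [] := by
  rw [dyad.c_apply]
  have : dyad.lam [] = 0 := rfl
  rw [this]; simp

theorem dyad_c_cons (b : Bool) (l : List Bool) (v : List Bool →₀ ℝ) :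
    dyad.c (b :: l) v = v (b :: l) + dyad.c l v := by
  rw [dyad.c_apply]
  have : dyad.lam (b :: l) = Finsupp.single l 1 := rfl
  rw [this, Finsupp.sum_single_index (by simp)]
  simp

/-- sign of a bit. -/
def sg (b : Bool) : ℝ := if b then 1 else -1

theorem abs_sg (b : Bool) : |sg b| = 1 := by cases b <;> simp [sg]

/-- sign of the head. -/
def hsg : List Bool → ℝ
  | [] => 0
  | b :: _ => sg b

/-- Rademacher-like vectors. -/
noncomputable def rad (n : ℕ) : List Bool →₀ ℝ :=
  Finsupp.ofSupportFinite (fun s => if s.length = n + 1 then hsg s else 0)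
    ((List.finite_length_eq Bool (n + 1)).subset fun s hs => by
      by_contra hc
      exact hs (if_neg hc))

theorem rad_apply (n : ℕ) (s : List Bool) : rad n s = if s.length = n + 1 then hsg s else 0 := rfl

theorem c_rad (ε : ℕ → Bool) (n k : ℕ) :
    dyad.c (br ε k) (rad n) = if n < k then sg (ε n) else 0 := by
  induction k with
  | zero =>
    show dyad.c [] (rad n) = _
    rw [dyad_c_nil, rad_apply]
    simp
  | succ k ih =>
    show dyad.c (ε k :: br ε k) (rad n) = _
    rw [dyad_c_cons, ih, rad_apply]
    have : (ε k :: br ε k).length = k + 1 := by simp [br_length]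
    rw [this]
    show (if k + 1 = n + 1 then sg (ε k) else 0) + _ = _
    rcases lt_trichotomy n k with h | h | h
    · rw [if_neg (by omega), if_pos h, if_pos (by omega), zero_add]
    · subst h
      rw [if_pos rfl, if_neg (lt_irrefl _), if_pos (by omega), add_zero]
    · rw [if_neg (by omega), if_neg (by omega), if_neg (by omega), add_zero]

theorem exists_br (s : List Bool) : ∃ ε : ℕ → Bool, s = br ε s.length := by
  induction s with
  | nil => exact ⟨fun _ => true, rfl⟩
  | cons b l ih =>
    obtain ⟨ε, hε⟩ := ih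
    refine ⟨fun k => if k = l.length then b else ε k, ?_⟩
    have h1 : ∀ m ≤ l.length, br (fun k => if k = l.length then b else ε k) m = br ε m := by
      intro m hm
      induction m with
      | zero => rfl
      | succ m ih =>
        show (if m = l.length then b else ε m) :: _ = ε m :: _
        rw [if_neg (by omega), ih (by omega)]
    show b :: l = (if l.length = l.length then b else ε l.length) :: br _ l.length
    rw [if_pos rfl, h1 _ le_rfl, ← hε]

theorem N_rad (n : ℕ) : dyad.N (rad n) ≤ 1 := by
  refine dyad.N_le _ _ zero_le_one fun s _ => ?_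
  obtain ⟨ε, hε⟩ := exists_br s
  rw [hε, c_rad]
  split_ifs
  · exact (abs_sg _).le
  · simp

/-- signed sums are bounded by the norm. -/
theorem sign_le (ε : ℕ → Bool) (a : ℕ →₀ ℝ) :
    |Finsupp.linearCombination ℝ (fun n => sg (ε n)) a| ≤
      dyad.N (Finsupp.linearCombination ℝ rad a) := by
  obtain ⟨k, hk⟩ : ∃ k, ∀ n ∈ a.support, n < k := by
    refine ⟨(∑ m ∈ a.support, m) + 1, fun n hn => ?_⟩
    have : n ≤ ∑ m ∈ a.support, m :=
      Finset.single_le_sum (f := fun m => m) (fun _ _ => Nat.zero_le _) hn
    omega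
  have h1 : Finsupp.linearCombination ℝ (fun n => sg (ε n)) a
      = dyad.c (br ε k) (Finsupp.linearCombination ℝ rad a) := by
    rw [Finsupp.linearCombination_apply, Finsupp.linearCombination_apply]
    unfold Finsupp.sum
    rw [map_sum]
    refine Finset.sum_congr rfl fun n hn => ?_
    rw [map_smul, c_rad, if_pos (hk n hn)]
  rw [h1]
  exact dyad.le_N _ _

theorem nonsep {E : Type} [AddCommGroup E] [Module ℝ E] (p : Seminorm ℝ E)
    (S : X dyad.N →L[ℝ] X p) (R : X p →L[ℝ] X dyad.N) (hRS : ∀ x, R (S x) = x) :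
    ¬ TopologicalSpace.SeparableSpace (StrongDual ℝ (Pre p)) := by
  classical
  intro hsep
  let y : ℕ → X p := fun n => S (emb dyad.N (rad n))
  have hy : ∀ n, ‖y n‖ ≤ ‖S‖ := by
    intro n
    refine (S.le_opNorm _).trans ?_
    rw [norm_emb]
    exact mul_le_of_le_one_right (norm_nonneg S) (N_rad n)
  let d : ℕ → StrongDual ℝ (Pre p) := TopologicalSpace.denseSeq _
  have hd : DenseRange d := TopologicalSpace.denseRange_denseSeq _
  have hD : ∀ k, ∃ F : StrongDual ℝ (X p), ‖F‖ ≤ ‖d k‖ ∧ ∀ x, F (emb p x) = d k (toPre p x) := by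
    intro k
    refine hahn_banach_coord (emb p) ((d k).toLinearMap ∘ₗ (toPre p).toLinearMap) ‖d k‖
      (norm_nonneg _) fun x => ?_
    rw [norm_emb]
    exact (d k).le_opNorm (toPre p x)
  choose D _ hD2 using hD
  let ε : ℕ → Bool := fun n => decide (¬ (0 ≤ D n (y n)))
  have hε : ∀ n, 1 ≤ |D n (y n) - sg (ε n)| := by
    intro n
    by_cases h : 0 ≤ D n (y n)
    · have : ε n = false := by simp [ε, h]
      rw [this]
      have h2 : D n (y n) - sg false = D n (y n) + 1 := by simp [sg]
      rw [h2, abs_of_nonneg (by linarith)]; linarith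
    · have : ε n = true := by simp [ε]; exact not_le.mp h
      rw [this]
      have h2 : D n (y n) - sg true = D n (y n) - 1 := by simp [sg]
      have h3 := not_le.mp h
      rw [h2, abs_of_neg (by linarith)]; linarith
  obtain ⟨F, _, hF⟩ := hahn_banach_coord (Finsupp.linearCombination ℝ y)
    (Finsupp.linearCombination ℝ (fun n => sg (ε n))) ‖R‖ (norm_nonneg R) (by
      intro a
      refine (sign_le ε a).trans ?_
      have h1 : Finsupp.linearCombination ℝ y a
          = S (emb dyad.N (Finsupp.linearCombination ℝ rad a)) := by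
        rw [Finsupp.linearCombination_apply, Finsupp.linearCombination_apply]
        unfold Finsupp.sum
        rw [map_sum, map_sum]
        refine Finset.sum_congr rfl fun n _ => ?_
        rw [map_smul, map_smul]
      rw [h1, ← norm_emb, ← hRS (emb dyad.N _)]
      refine (R.le_opNorm _).trans ?_
      rw [hRS])
  have hFy : ∀ n, F (y n) = sg (ε n) := by
    intro n
    have := hF (Finsupp.single n 1)
    simpa using this
  -- restrict to the dense subspace
  let Fp : StrongDual ℝ (Pre p) := F.comp (UniformSpace.Completion.toComplL (𝕜 := ℝ) (E := Pre p))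
  set η : ℝ := 1 / (2 * (‖S‖ + 1)) with hη
  have hη0 : 0 < η := by positivity
  obtain ⟨_, hk, ⟨k, rfl⟩⟩ := Metric.dense_iff.mp hd Fp η hη0
  rw [Metric.mem_ball, dist_eq_norm] at hk
  have hle : ∀ w : X p, ‖D k w - F w‖ ≤ η * ‖w‖ := by
    intro w
    refine (dense_emb p).induction (P := fun w => ‖D k w - F w‖ ≤ η * ‖w‖) ?_ ?_ w
    · rintro _ ⟨x, rfl⟩
      have h1 : D k (emb p x) - F (emb p x) = (d k - Fp) (toPre p x) := by
        rw [hD2]; rfl
      rw [h1, norm_emb, ← norm_toPre p x]
      exact (d k - Fp).le_of_opNorm_le hk.le _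
    · exact isClosed_le (by fun_prop) (by fun_prop)
  have h1 := hle (y k)
  rw [hFy] at h1
  have h2 := hε k
  have h3 : η * ‖y k‖ ≤ η * ‖S‖ := mul_le_mul_of_nonneg_left (hy k) hη0.le
  have h4 : η * ‖S‖ < 1 := by
    rw [hη, div_mul_eq_mul_div, one_mul, div_lt_one (by positivity)]
    linarith [norm_nonneg S]
  rw [Real.norm_eq_abs] at h1
  linarith

theorem no_iso_of_wf (T : List ℕ → Bool) (hT : ¬ ∃ β : ℕ → ℕ, ∀ k, T (br β k) = true) :
    ¬ Nonempty (X (tsys T).N ≃L[ℝ] X rich.N) := by
  rintro ⟨e⟩
  obtain ⟨e2⟩ := rich_absorb dyad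
  have hsep := separable_dual T hT
  refine nonsep (tsys T).N
    ((e.symm : X rich.N →L[ℝ] X (tsys T).N).comp
      ((e2.symm : (X dyad.N × X rich.N) →L[ℝ] X rich.N).comp
        (ContinuousLinearMap.inl ℝ (X dyad.N) (X rich.N))))
    ((ContinuousLinearMap.fst ℝ (X dyad.N) (X rich.N)).comp
      ((e2 : X rich.N →L[ℝ] (X dyad.N × X rich.N)).comp
        (e : X (tsys T).N →L[ℝ] X rich.N))) ?_ hsep
  intro x
  simp

end Gur
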