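import Pool.Agent.Helper87.GurBasic

namespace Gur

universe u

/-- Exact extension version. -/
theorem IsGurarii.exact {G : Type u} [NormedAddCommGroup G] [NormedSpace ℝ G] (hG : IsGurarii G)
    (δ : ℝ) (hδ : 0 < δ) (A : Submodule ℝ G) (B : Type) [NormedAddCommGroup B]
    [NormedSpace ℝ B] [FiniteDimensional ℝ B] (g : A →ₗᵢ[ℝ] B) :
    ∃ f : B →ₗ[ℝ] G,
      (∀ b, (1 + δ)⁻¹ * ‖b‖ ≤ ‖f b‖ ∧ ‖f b‖ ≤ (1 + δ) * ‖b‖) ∧
      ∀ a : A, f (g a) = (a : G) := by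
  obtain ⟨Q, hQ⟩ := g.toLinearMap.exists_leftInverse_of_injective
    (LinearMap.ker_eq_bot.mpr g.injective)
  have hQ' : ∀ a, Q (g a) = a := fun a => LinearMap.congr_fun hQ a
  set M : ℝ := ‖LinearMap.toContinuousLinearMap Q‖ with hM
  have hM0 : 0 ≤ M := norm_nonneg (LinearMap.toContinuousLinearMap Q)
  have hMle : ∀ b, ‖Q b‖ ≤ M * ‖b‖ := fun b =>
    (LinearMap.toContinuousLinearMap Q).le_opNorm b
  set ε : ℝ := δ / ((1 + δ) * (1 + M)) with hε
  have hε0 : 0 < ε := by positivity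
  have hε1 : ε * (1 + M) = δ / (1 + δ) := by
    rw [hε]; field_simp
  have hε2 : δ / (1 + δ) ≤ δ := div_le_self hδ.le (by linarith)
  obtain ⟨f, hf, hfg⟩ := hG.extend ε hε0 A B g
  refine ⟨f + (A.subtype - f ∘ₗ g.toLinearMap) ∘ₗ Q, ?_, ?_⟩
  · intro b
    have h1 : ‖(A.subtype - f ∘ₗ g.toLinearMap) (Q b)‖ ≤ ε * M * ‖b‖ := by
      have h2 := hfg (Q b)
      rw [← norm_neg] at h2
      have h3 : -(f (g (Q b)) - (Q b : G)) = (A.subtype - f ∘ₗ g.toLinearMap) (Q b) := by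
        simp
      rw [h3] at h2
      calc _ ≤ ε * ‖Q b‖ := h2
        _ ≤ ε * (M * ‖b‖) := mul_le_mul_of_nonneg_left (hMle b) hε0.le
        _ = _ := by ring
    obtain ⟨h4, h5⟩ := hf b
    have hb : 0 ≤ ‖b‖ := norm_nonneg b
    have h6 : (1 + ε)⁻¹ ≥ 1 - ε := by
      rw [ge_iff_le, ← sub_nonneg]
      have : (1 + ε)⁻¹ - (1 - ε) = ε ^ 2 / (1 + ε) := by field_simp; ring
      rw [this]; positivity
    have h7 : (1 + δ)⁻¹ = 1 - δ / (1 + δ) := by field_simp; ring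
    simp only [LinearMap.add_apply, LinearMap.comp_apply]
    constructor
    · have h8 := norm_sub_norm_le (f b) (-((A.subtype - f ∘ₗ g.toLinearMap) (Q b)))
      rw [norm_neg, sub_neg_eq_add] at h8
      refine le_trans ?_ h8
      rw [h7, ← hε1]
      nlinarith [mul_le_mul_of_nonneg_right h6 hb]
    · refine (norm_add_le _ _).trans ?_
      have : (1 + ε) * ‖b‖ + ε * M * ‖b‖ ≤ (1 + δ) * ‖b‖ := by
        have : (1 + ε) + ε * M ≤ 1 + δ := by nlinarith
        nlinarith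
      linarith
  · intro a
    simp only [LinearMap.add_apply, LinearMap.comp_apply, hQ', LinearMap.sub_apply,
      Submodule.subtype_apply]
    simp

/-- Isomorphic version: an isomorphic embedding of a subspace of `G` into a finite-dimensional
space is inverted by an embedding into `G`. -/
theorem IsGurarii.iso_ext {G : Type u} [NormedAddCommGroup G] [NormedSpace ℝ G] (hG : IsGurarii G)
    (δ : ℝ) (hδ : 0 < δ) (κ : ℝ) (hκ : 1 ≤ κ) (Y : Submodule ℝ G) (L : Type)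
    [NormedAddCommGroup L] [NormedSpace ℝ L] [FiniteDimensional ℝ L] (h : Y →ₗ[ℝ] L)
    (h1 : ∀ y, ‖h y‖ ≤ κ * ‖y‖) (h2 : ∀ y, ‖y‖ ≤ κ * ‖h y‖) :
    ∃ γ : L →ₗ[ℝ] G, (∀ l, ‖l‖ ≤ κ * (1 + δ) * ‖γ l‖ ∧ ‖γ l‖ ≤ κ * (1 + δ) * ‖l‖) ∧
      ∀ y : Y, γ (h y) = (y : G) := by
  have hκ0 : 0 ≤ κ := by linarith
  -- the new norm
  have bdd : ∀ l : L, BddBelow (Set.range fun y : Y => ‖y‖ + κ * ‖l - h y‖) := fun l =>
    ⟨0, by rintro _ ⟨y, rfl⟩; positivity⟩
  let q : Seminorm ℝ L := Seminorm.ofSMulLE (fun l => ⨅ y : Y, ‖y‖ + κ * ‖l - h y‖)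
    (by
      refine le_antisymm ?_ (Real.iInf_nonneg fun y => by positivity)
      exact (ciInf_le (bdd 0) 0).trans (by simp))
    (by
      intro l l'
      refine le_ciInf_add_ciInf fun y y' => ?_
      refine (ciInf_le (bdd _) (y + y')).trans ?_
      have e1 : l + l' - h (y + y') = (l - h y) + (l' - h y') := by rw [map_add]; abel
      rw [e1]
      have := norm_add_le y y'
      have := mul_le_mul_of_nonneg_left (norm_add_le (l - h y) (l' - h y')) hκ0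
      linarith)
    (by
      intro r l
      show (⨅ y : Y, ‖y‖ + κ * ‖r • l - h y‖) ≤ ‖r‖ * ⨅ y : Y, ‖y‖ + κ * ‖l - h y‖
      rw [Real.mul_iInf_of_nonneg (norm_nonneg r)]
      refine le_ciInf fun y => ?_
      refine (ciInf_le (bdd _) (r • y)).trans ?_
      rw [map_smul, ← smul_sub, norm_smul, norm_smul]
      apply le_of_eq; ring)
  have q_def : ∀ l, q l = ⨅ y : Y, ‖y‖ + κ * ‖l - h y‖ := fun l => rfl
  have q_h : ∀ y, q (h y) = ‖y‖ := by
    intro y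
    rw [q_def]
    apply le_antisymm
    · exact (ciInf_le (bdd _) y).trans (by simp)
    · refine le_ciInf fun y' => ?_
      rw [← map_sub]
      have := h2 (y - y')
      have := norm_add_le y' (y - y')
      rw [add_sub_cancel] at this
      linarith
  have q_le : ∀ l, q l ≤ κ * ‖l‖ := by
    intro l
    rw [q_def]
    exact (ciInf_le (bdd _) 0).trans (by simp)
  have le_q : ∀ l, ‖l‖ ≤ κ * q l := by
    intro l
    rw [q_def, Real.mul_iInf_of_nonneg hκ0]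
    refine le_ciInf fun y => ?_
    have e1 : ‖l‖ ≤ ‖h y‖ + ‖l - h y‖ := by
      have := norm_add_le (h y) (l - h y)
      rwa [add_sub_cancel] at this
    have e2 := h1 y
    have e3 : 0 ≤ ‖l - h y‖ := norm_nonneg _
    nlinarith [mul_nonneg (sub_nonneg.mpr hκ) e3, mul_nonneg (mul_nonneg (sub_nonneg.mpr hκ) e3)
      hκ0]
  -- the normed space
  let B := SeparationQuotient (Pre q)
  let π : L →ₗ[ℝ] B := (SeparationQuotient.mkCLM ℝ (Pre q)).toLinearMap ∘ₗ (toPre q).toLinearMap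
  have hπ : ∀ l, ‖π l‖ = q l := fun l => rfl
  have hπs : Function.Surjective π := by
    intro b
    obtain ⟨x, rfl⟩ := SeparationQuotient.surjective_mk b
    exact ⟨(toPre q).symm x, rfl⟩
  have : FiniteDimensional ℝ B := Module.Finite.of_surjective π hπs
  let g : Y →ₗᵢ[ℝ] B := ⟨π ∘ₗ h, fun y => by
    show ‖π (h y)‖ = ‖y‖
    rw [hπ, q_h]⟩
  obtain ⟨f, hf, hfg⟩ := hG.exact δ hδ Y B g
  refine ⟨f ∘ₗ π, fun l => ?_, fun y => hfg y⟩
  obtain ⟨h4, h5⟩ := hf (π l)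
  rw [hπ] at h4 h5
  simp only [LinearMap.comp_apply]
  have hδ1 : 0 < 1 + δ := by linarith
  constructor
  · have h6 : q l ≤ (1 + δ) * ‖f (π l)‖ := by
      have := mul_le_mul_of_nonneg_left h4 hδ1.le
      rwa [← mul_assoc, mul_inv_cancel₀ hδ1.ne', one_mul] at this
    calc ‖l‖ ≤ κ * q l := le_q l
      _ ≤ κ * ((1 + δ) * ‖f (π l)‖) := mul_le_mul_of_nonneg_left h6 hκ0
      _ = _ := by ring
  · calc ‖f (π l)‖ ≤ (1 + δ) * q l := h5
      _ ≤ (1 + δ) * (κ * ‖l‖) := mul_le_mul_of_nonneg_left (q_le l) hδ1.le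
      _ = _ := by ring

/-- Hahn–Banach in coordinates. -/
theorem hahn_banach_coord {G : Type*} [SeminormedAddCommGroup G] [NormedSpace ℝ G] {E : Type*}
    [AddCommGroup E] [Module ℝ E] (β : E →ₗ[ℝ] G) (φ : E →ₗ[ℝ] ℝ) (κ : ℝ) (hκ : 0 ≤ κ)
    (h : ∀ x, |φ x| ≤ κ * ‖β x‖) :
    ∃ F : StrongDual ℝ G, ‖F‖ ≤ κ ∧ ∀ x, F (β x) = φ x := by
  have hex : ∃ C : ℝ, ∀ x, ‖φ x‖ ≤ C * ‖β x‖ := ⟨κ, h⟩
  obtain ⟨F, hF, hn⟩ := exists_extension_norm_eq (LinearMap.range β) (φ.compLeftInverse β)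
  have hval : ∀ x, F (β x) = φ x := by
    intro x
    have := hF ⟨β x, LinearMap.mem_range_self β x⟩
    rw [LinearMap.compLeftInverse_apply_of_bdd φ β hex x (β x) rfl] at this
    exact this
  refine ⟨F, ?_, hval⟩
  rw [hn]
  refine ContinuousLinearMap.opNorm_le_bound _ hκ ?_
  rintro ⟨_, x, rfl⟩
  rw [LinearMap.compLeftInverse_apply_of_bdd φ β hex x (β x) rfl]
  exact h x

/-- A finite norming family of functionals. -/
theorem norming {G : Type*} [NormedAddCommGroup G] [NormedSpace ℝ G] (Y : Submodule ℝ G)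
    [FiniteDimensional ℝ Y] (ε : ℝ) (hε : 0 < ε) :
    ∃ (J : ℕ) (ψ : Fin J → StrongDual ℝ G), (∀ j, ‖ψ j‖ ≤ 1) ∧
      ∀ y ∈ Y, (1 - ε) * ‖y‖ ≤ ‖fun j => ψ j y‖ := by
  have hK : IsCompact (Metric.sphere (0 : Y) 1) := isCompact_sphere 0 1
  obtain ⟨t, hts, htf, hcov⟩ := hK.finite_cover_balls hε
  choose F hF1 hF2 using fun y : Y => exists_dual_vector'' ℝ (y : G)
  refine ⟨htf.toFinset.card, fun j => F (htf.toFinset.equivFin.symm j).1, fun j => hF1 _, ?_⟩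
  intro y hy
  by_cases hy0 : y = 0
  · subst hy0; simp
  have hn : 0 < ‖y‖ := norm_pos_iff.mpr hy0
  set u : Y := ‖y‖⁻¹ • (⟨y, hy⟩ : Y) with hu
  have hun : u ∈ Metric.sphere (0 : Y) 1 := by
    rw [mem_sphere_zero_iff_norm, hu, norm_smul, norm_inv, norm_norm]
    exact inv_mul_cancel₀ hn.ne'
  have hc := hcov hun
  simp only [Set.mem_iUnion, exists_prop] at hc
  obtain ⟨x, hxt, hxu⟩ := hc
  have hxn : ‖x‖ = 1 := by simpa using hts hxt
  rw [Metric.mem_ball, dist_eq_norm] at hxu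
  have hxF : x ∈ htf.toFinset := by simpa using hxt
  have h1 : F x (u : G) ≥ 1 - ε := by
    have h2 : F x (u : G) = F x (x : G) + F x ((u - x : Y) : G) := by
      rw [← map_add]; congr 1; push_cast; abel
    have h3 : F x (x : G) = 1 := by
      rw [hF2]; exact_mod_cast hxn
    have h4 : |F x ((u - x : Y) : G)| ≤ ε := by
      have := (F x).le_of_opNorm_le (hF1 x) ((u - x : Y) : G)
      rw [one_mul] at this
      exact this.trans hxu.le
    rw [h2, h3]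
    linarith [neg_abs_le (F x ((u - x : Y) : G))]
  have h5 : F x (u : G) = ‖y‖⁻¹ * F x y := by
    rw [hu]; push_cast; rw [map_smul]; rfl
  have h6 : (1 - ε) * ‖y‖ ≤ F x y := by
    rw [h5] at h1
    have := mul_le_mul_of_nonneg_right h1 hn.le
    calc (1 - ε) * ‖y‖ ≤ ‖y‖⁻¹ * F x y * ‖y‖ := this
      _ = F x y := by field_simp
  calc (1 - ε) * ‖y‖ ≤ F x y := h6
    _ ≤ |F x y| := le_abs_self _
    _ = ‖(fun j => F (htf.toFinset.equivFin.symm j).1 y) (htf.toFinset.equivFin ⟨x, hxF⟩)‖ := by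
        simp
    _ ≤ _ := norm_le_pi_norm (fun j => F (htf.toFinset.equivFin.symm j).1 y) _

end Gur
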