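import Pool.Agent.Helper87.GurUniq

namespace Gur

universe u

open MeasureTheory

/-- reindexing of the tree basis by the natural numbers. -/
noncomputable def ridx : (ℕ →₀ ℝ) ≃ₗ[ℝ] (List ℕ →₀ ℝ) :=
  Finsupp.domLCongr (Denumerable.eqv (List ℕ)).symm

/-- the seminorm attached to a tree. -/
noncomputable def pT (T : List ℕ → Bool) : Seminorm ℝ (ℕ →₀ ℝ) :=
  (tsys T).N.comp ridx.toLinearMap

theorem pT_apply (T : List ℕ → Bool) (x : ℕ →₀ ℝ) : pT T x = (tsys T).N (ridx x) := rfl

/-- the pseudonorm attached to a tree. -/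
noncomputable def muT (T : List ℕ → Bool) : (ℕ →₀ ℚ) → ℝ := fun v => pT T (toR v)

theorem isExt_pT (T : List ℕ → Bool) : IsExt (pT T) (muT T) := fun _ => rfl

theorem pT_eq_zero (T : List ℕ → Bool) (x : ℕ →₀ ℝ) (h : pT T x = 0) : x = 0 := by
  rw [pT_apply] at h
  have := (tsys T).eq_zero_of_N _ h
  exact (LinearEquiv.map_eq_zero_iff _).mp this

theorem pT_infinite (T : List ℕ → Bool) : ¬ FiniteDimensional ℝ (X (pT T)) := by
  intro hfd
  have hinj : Function.Injective (emb (pT T)) := by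
    rw [← LinearMap.ker_eq_bot, LinearMap.ker_eq_bot']
    intro x hx
    refine pT_eq_zero T x ?_
    rw [← norm_emb, hx, norm_zero]
  have hfd2 : FiniteDimensional ℝ (ℕ →₀ ℝ) := FiniteDimensional.of_injective _ hinj
  have h1 := (Finsupp.basisSingleOne (R := ℝ) (ι := ℕ)).linearIndependent.finite
  exact not_finite ℕ

theorem muT_mem (T : List ℕ → Bool) : muT T ∈ Bset := by
  refine ⟨⟨⟨?_, ?_⟩, pT T, isExt_pT T, pT_infinite T⟩, pT T, isExt_pT T, pT_eq_zero T⟩
  · intro x y
    show pT T (toR (x + y)) ≤ pT T (toR x) + pT T (toR y)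
    rw [toR_add]; exact map_add_le_add _ _ _
  · intro q x
    show pT T (toR (q • x)) = |(q : ℝ)| * pT T (toR x)
    rw [toR_smul, map_smul_eq_mul, Real.norm_eq_abs]

/-- The reduction map. -/
noncomputable def Th (T : List ℕ → Bool) : Bset := ⟨muT T, muT_mem T⟩

theorem Th_continuous : Continuous Th := by
  refine Continuous.subtype_mk ?_ _
  refine continuous_pi fun v => ?_
  exact tsys_N_continuous (ridx (toR v))

theorem pT_iso (T : List ℕ → Bool) : Nonempty (X (pT T) ≃L[ℝ] X (tsys T).N) := by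
  refine X_iso (pT T) (tsys T).N ridx 1 ?_ ?_
  · intro v; rw [one_mul, pT_apply]
  · intro v; rw [one_mul, pT_apply]

theorem Th_mem_iff {G : Type u} [NormedAddCommGroup G] [NormedSpace ℝ G] (hG : IsGurarii G)
    (T : List ℕ → Bool) : Th T ∈ isoClass Bset G ↔ T ∈ IF := by
  obtain ⟨eG⟩ := gurarii_iso_rich hG
  obtain ⟨eT⟩ := pT_iso T
  constructor
  · rintro ⟨p, hp, ⟨e⟩⟩
    have : p = pT T := ext_unique p (pT T) (muT T) hp (isExt_pT T)
    subst this
    by_contra hT
    exact no_iso_of_wf T hT ⟨eT.symm.trans (e.trans eG)⟩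
  · rintro ⟨β, hβ⟩
    obtain ⟨e⟩ := iso_of_branch T β hβ
    exact ⟨pT T, isExt_pT T, ⟨eT.trans (e.trans eG.symm)⟩⟩

theorem Bset_not_borel {G : Type u} [NormedAddCommGroup G] [NormedSpace ℝ G]
    (hG : IsGurarii G) : ¬ MeasurableSet[borel Bset] (isoClass Bset G) := by
  intro h
  let _ : MeasurableSpace Bset := borel Bset
  have : BorelSpace Bset := ⟨rfl⟩
  have hm : Measurable Th := Th_continuous.measurable
  apply IF_not_measurable
  have h2 : IF = Th ⁻¹' (isoClass Bset G) := by
    ext T; exact (Th_mem_iff hG T).symm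
  rw [h2]
  exact hm h

theorem Pinf_not_borel {G : Type u} [NormedAddCommGroup G] [NormedSpace ℝ G]
    (hG : IsGurarii G) : ¬ MeasurableSet[borel Pinf] (isoClass Pinf G) := by
  intro h
  apply Bset_not_borel hG
  let _ : MeasurableSpace Bset := borel Bset
  have : BorelSpace Bset := ⟨rfl⟩
  let _ : MeasurableSpace Pinf := borel Pinf
  have : BorelSpace Pinf := ⟨rfl⟩
  let inc : Bset → Pinf := fun μ => ⟨μ.1, μ.2.1⟩
  have hc : Continuous inc := Continuous.subtype_mk continuous_subtype_val _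
  have h2 : isoClass Bset G = inc ⁻¹' (isoClass Pinf G) := rfl
  rw [h2]
  exact hc.measurable h

theorem not_gdelta {α : Type*} [TopologicalSpace α] (s : Set α)
    (h : ¬ MeasurableSet[borel α] s) : ¬ IsGδ s := by
  intro hs
  apply h
  let _ : MeasurableSpace α := borel α
  have : BorelSpace α := ⟨rfl⟩
  exact hs.measurableSet

end Gur
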