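import Pool.Agent.Helper87.GurSys

namespace Gur

open Finset

/-- ℓ₁ norm of a rational row. -/
def l1 {α : Type*} (v : α →₀ ℚ) : ℚ := v.sum fun _ q => |q|

theorem l1_add {α : Type*} (v w : α →₀ ℚ) : l1 (v + w) ≤ l1 v + l1 w := by
  classical
  unfold l1
  rw [Finsupp.sum_of_support_subset (v + w) (Finsupp.support_add) _ (by simp),
    Finsupp.sum_of_support_subset v (Finset.subset_union_left (s₂ := w.support)) _ (by simp),
    Finsupp.sum_of_support_subset w (Finset.subset_union_right (s₁ := v.support)) _ (by simp),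
    ← Finset.sum_add_distrib]
  exact Finset.sum_le_sum fun s _ => abs_add_le _ _

theorem l1_single {α : Type*} (a : α) (q : ℚ) : l1 (Finsupp.single a q) = |q| := by
  unfold l1; rw [Finsupp.sum_single_index (abs_zero)]

theorem l1_zero {α : Type*} : l1 (0 : α →₀ ℚ) = 0 := by simp [l1]

theorem l1_mapDomain {α β : Type*} (g : α → β) (v : α →₀ ℚ) : l1 (v.mapDomain g) ≤ l1 v := by
  unfold Finsupp.mapDomain
  unfold Finsupp.sum
  refine (Finset.le_sum_of_subadditive l1 l1_zero.le l1_add _ _).trans ?_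
  simp only [l1_single]
  exact le_rfl

theorem l1_comapDomain {α β : Type*} (g : α → β) (hg : Function.Injective g) (v : β →₀ ℚ) :
    l1 (v.comapDomain g hg.injOn) ≤ l1 v := by
  classical
  unfold l1 Finsupp.sum
  show ∑ a ∈ v.support.preimage g hg.injOn, |v (g a)| ≤ ∑ b ∈ v.support, |v b|
  calc ∑ a ∈ v.support.preimage g hg.injOn, |v (g a)|
      = ∑ b ∈ (v.support.preimage g hg.injOn).map ⟨g, hg⟩, |v b| := by
        rw [Finset.sum_map]; rfl
    _ ≤ ∑ b ∈ v.support, |v b| := by
        refine Finset.sum_le_sum_of_subset_of_nonneg ?_ (fun _ _ _ => abs_nonneg _)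
        intro b hb
        simp only [Finset.mem_map, Finset.mem_preimage, Function.Embedding.coeFn_mk] at hb
        obtain ⟨a, ha, rfl⟩ := hb
        exact ha

/-- Restriction of a system along an injection. -/
noncomputable def Sys.restr {κ ρ : Type} (B : Sys κ) (k : ρ → κ) (hk : Function.Injective k) :
    Sys ρ where
  lam r := (B.lam (k r)).comapDomain k hk.injOn
  rk r := B.rk (k r)
  inj := B.inj.comp hk
  lt t s h := B.lt _ _ (by simpa using h)
  le_one t := (l1_comapDomain k hk _).trans (B.le_one _)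

/-- The equivalence attached to an injection. -/
noncomputable def complEquiv {ι κ : Type} (j : ι → κ) (hj : Function.Injective j) :
    ι ⊕ ((Set.range j)ᶜ : Set κ) ≃ κ := by
  classical
  exact (Equiv.sumCongr (Equiv.ofInjective j hj) (Equiv.refl _)).trans
    (Equiv.Set.sumCompl (Set.range j))

theorem complEquiv_inl {ι κ : Type} (j : ι → κ) (hj : Function.Injective j) (t : ι) :
    complEquiv j hj (Sum.inl t) = j t := by
  simp [complEquiv]

theorem complEquiv_inr {ι κ : Type} (j : ι → κ) (hj : Function.Injective j)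
    (k : ((Set.range j)ᶜ : Set κ)) :
    complEquiv j hj (Sum.inr k) = k.1 := by
  simp [complEquiv]

theorem split_of_inj {ι κ : Type} (A : Sys ι) (B : Sys κ) (j : ι → κ) (hj : Function.Injective j)
    (h1 : ∀ t s, B.lam (j t) (j s) = A.lam t s)
    (h2 : ∀ t m, m ∉ Set.range j → B.lam (j t) m = 0) :
    Split A (B.restr (fun k : ((Set.range j)ᶜ : Set κ) => k.1) Subtype.val_injective) B
      (complEquiv j hj) where
  h1 t s := by rw [complEquiv_inl, complEquiv_inl, h1]
  h2 t k := by rw [complEquiv_inl, complEquiv_inr]; exact h2 t k.1 k.2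
  h3 k k' := by rw [complEquiv_inr, complEquiv_inr]; simp [Sys.restr]

/-- Countable power of a system. -/
noncomputable def Sys.pow {ι : Type} (A : Sys ι) : Sys (ι × ℕ) where
  lam t := (A.lam t.1).mapDomain fun s => (s, t.2)
  rk t := Nat.pair t.2 (A.rk t.1)
  inj := by
    rintro ⟨t, i⟩ ⟨s, k⟩ h
    have := Nat.pair_eq_pair.mp h
    obtain ⟨h1, h2⟩ := this
    simp only at h1 h2
    rw [A.inj h2, h1]
  lt := by
    rintro ⟨t, i⟩ ⟨s, k⟩ h
    have hs : (s, k) ∈ Set.range fun s : ι => (s, i) := by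
      by_contra hc
      exact h (Finsupp.mapDomain_of_notMem_range _ _ hc)
    obtain ⟨s', hs'⟩ := hs
    simp only [Prod.mk.injEq] at hs'
    obtain ⟨rfl, rfl⟩ := hs'
    simp only at h
    rw [Finsupp.mapDomain_apply (Prod.mk_left_injective i)] at h
    exact Nat.pair_lt_pair_right _ (A.lt t s' h)
  le_one t := (l1_mapDomain _ _).trans (A.le_one t.1)

theorem Sys.pow_lam {ι : Type} (A : Sys ι) (t s : ι) (i k : ℕ) :
    A.pow.lam (t, i) (s, k) = if k = i then A.lam t s else 0 := by
  show (A.lam t).mapDomain (fun s => (s, i)) (s, k) = _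
  split_ifs with h
  · subst h
    exact Finsupp.mapDomain_apply (Prod.mk_left_injective k) _ _
  · refine Finsupp.mapDomain_of_notMem_range _ _ ?_
    rintro ⟨x, hx⟩
    simp only [Prod.mk.injEq] at hx
    exact h hx.2.symm

/-- The shift equivalence. -/
def shiftEquiv (ι : Type) : ι ⊕ (ι × ℕ) ≃ ι × ℕ where
  toFun x := match x with
    | Sum.inl t => (t, 0)
    | Sum.inr t => (t.1, t.2 + 1)
  invFun x := match x with
    | (t, 0) => Sum.inl t
    | (t, n + 1) => Sum.inr (t, n)
  left_inv x := by rcases x with t | ⟨t, n⟩ <;> rfl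
  right_inv x := by rcases x with ⟨t, _ | n⟩ <;> rfl

theorem pow_split {ι : Type} (A : Sys ι) : Split A A.pow A.pow (shiftEquiv ι) where
  h1 t s := by simp [shiftEquiv, Sys.pow_lam]
  h2 t k := by simp [shiftEquiv, Sys.pow_lam]
  h3 := by
    rintro ⟨t, i⟩ ⟨s, k⟩
    simp [shiftEquiv, Sys.pow_lam]

/-! ### the rich system -/

/-- enumeration of all finitely supported rational rows. -/
noncomputable def en : ℕ → (ℕ →₀ ℚ) := (exists_surjective_nat (ℕ →₀ ℚ)).choose

theorem en_surj : Function.Surjective en := (exists_surjective_nat (ℕ →₀ ℚ)).choose_spec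

open Classical in
/-- row of the rich system. -/
noncomputable def richRow (n : ℕ) : ℕ →₀ ℚ :=
  if (∀ m, en n.unpair.1 m ≠ 0 → m < n) ∧ l1 (en n.unpair.1) ≤ 1 then en n.unpair.1 else 0

/-- The rich system. -/
noncomputable def rich : Sys ℕ where
  lam := richRow
  rk := id
  inj := Function.injective_id
  lt t s h := by
    unfold richRow at h
    split_ifs at h with hc
    · exact hc.1 s h
    · simp at h
  le_one t := by
    show l1 (richRow t) ≤ 1
    unfold richRow
    split_ifs with hc
    · exact hc.2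
    · rw [l1_zero]; exact zero_le_one

theorem rich_exists (r : ℕ →₀ ℚ) (hr : l1 r ≤ 1) (M : ℕ) : ∃ n, M ≤ n ∧ rich.lam n = r := by
  obtain ⟨k, hk⟩ := en_surj r
  refine ⟨Nat.pair k (M + (∑ m ∈ r.support, m) + 1), ?_, ?_⟩
  · exact le_trans (by omega) (Nat.right_le_pair _ _)
  · show richRow _ = r
    unfold richRow
    rw [Nat.unpair_pair, hk, if_pos]
    refine ⟨fun m hm => ?_, hr⟩
    have h1 : m ≤ ∑ m ∈ r.support, m :=
      Finset.single_le_sum (f := fun m => m) (fun _ _ => Nat.zero_le _) (by simpa using hm)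
    exact lt_of_lt_of_le (by omega) (Nat.right_le_pair _ _)

section embed
variable {ι : Type} (A : Sys ι)

open Classical in
/-- target row. -/
noncomputable def tRow (n : ℕ) (f : ∀ m, m < n → ℕ) : ℕ →₀ ℚ :=
  if h : ∃ t, A.rk t = n then
    (A.lam h.choose).mapDomain fun s => if hs : A.rk s < n then f (A.rk s) hs else 0
  else 0

theorem l1_tRow (n : ℕ) (f : ∀ m, m < n → ℕ) : l1 (tRow A n f) ≤ 1 := by
  unfold tRow
  split_ifs with h
  · exact (l1_mapDomain _ _).trans (A.le_one _)
  · rw [l1_zero]; exact zero_le_one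

/-- bound. -/
def bdF (n : ℕ) (f : ∀ m, m < n → ℕ) : ℕ :=
  (∑ m ∈ (Finset.range n).attach, f m.1 (Finset.mem_range.mp m.2)) + 1

/-- The embedding on ranks. -/
noncomputable def J (A : Sys ι) (n : ℕ) : ℕ :=
  (rich_exists (tRow A n fun m _ => J A m) (l1_tRow A n _) (bdF n fun m _ => J A m)).choose
termination_by n

theorem J_spec (n : ℕ) : bdF n (fun m _ => J A m) ≤ J A n ∧
    rich.lam (J A n) = tRow A n fun m _ => J A m := by
  have := (rich_exists (tRow A n fun m _ => J A m) (l1_tRow A n _)
    (bdF n fun m _ => J A m)).choose_spec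
  rw [← J] at this
  exact this

theorem J_mono : StrictMono (J A) := by
  intro m n hmn
  refine lt_of_lt_of_le ?_ (J_spec A n).1
  unfold bdF
  have : J A m ≤ ∑ x ∈ (Finset.range n).attach, J A x.1 :=
    Finset.single_le_sum (f := fun x : {x // x ∈ Finset.range n} => J A x.1)
      (fun _ _ => Nat.zero_le _) (Finset.mem_attach _ ⟨m, Finset.mem_range.mpr hmn⟩)
  exact Nat.lt_succ_of_le this

/-- The embedding of a system into the rich system. -/
noncomputable def jj (A : Sys ι) (t : ι) : ℕ := J A (A.rk t)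

theorem jj_inj : Function.Injective (jj A) := (J_mono A).injective.comp A.inj

theorem jj_lam (t : ι) : rich.lam (jj A t) = (A.lam t).mapDomain (jj A) := by
  have h := (J_spec A (A.rk t)).2
  unfold jj
  rw [h]
  unfold tRow
  have hex : ∃ s, A.rk s = A.rk t := ⟨t, rfl⟩
  rw [dif_pos hex]
  have : hex.choose = t := A.inj hex.choose_spec
  rw [this]
  refine Finsupp.mapDomain_congr fun s hs => ?_
  rw [dif_pos (A.lt t s (Finsupp.mem_support_iff.mp hs))]

theorem rich_absorb : Nonempty (X rich.N ≃L[ℝ] X A.N × X rich.N) := by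
  -- embed the power
  have hs := split_of_inj A.pow rich (jj A.pow) (jj_inj A.pow)
    (fun t s => by rw [jj_lam, Finsupp.mapDomain_apply (jj_inj _)])
    (fun t m hm => by rw [jj_lam, Finsupp.mapDomain_of_notMem_range _ _ hm])
  obtain ⟨e1⟩ := hs.iso
  obtain ⟨e2⟩ := (pow_split A).iso
  have e3 := e2.prodCongr (ContinuousLinearEquiv.refl ℝ
    (X ((rich.restr (fun k : ((Set.range (jj A.pow))ᶜ : Set ℕ) => k.1)
      Subtype.val_injective)).N))
  refine ⟨(e1.trans e3).trans ((ContinuousLinearEquiv.prodAssoc ℝ _ _ _).trans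
    ((ContinuousLinearEquiv.refl ℝ _).prodCongr e1.symm))⟩

end embed

end Gur
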