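import Pool.Agent.Helper87.GurExt
import Pool.Agent.Helper87.GurRich

namespace Gur

universe u

open Finset

/-- vectors supported below `N`. -/
def Low (N : ℕ) (v : ℕ →₀ ℝ) : Prop := ∀ n, N ≤ n → v n = 0

/-- Extension by zero. -/
noncomputable def ext (N : ℕ) : (Fin N → ℝ) →ₗ[ℝ] (ℕ →₀ ℝ) :=
  ∑ i : Fin N, (Finsupp.lsingle i.1) ∘ₗ (LinearMap.proj i)

theorem ext_apply (N : ℕ) (x : Fin N → ℝ) (i : Fin N) : ext N x i.1 = x i := by
  classical
  simp only [ext, LinearMap.coe_sum, Finset.sum_apply, LinearMap.comp_apply, LinearMap.proj_apply,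
    Finsupp.lsingle_apply, Finsupp.coe_finsetSum, Finsupp.single_apply]
  rw [Finset.sum_eq_single i]
  · simp
  · intro b _ hb
    rw [if_neg]; exact fun h => hb (Fin.ext h)
  · simp

theorem ext_low (N : ℕ) (x : Fin N → ℝ) : Low N (ext N x) := by
  classical
  intro n hn
  simp only [ext, LinearMap.coe_sum, Finset.sum_apply, LinearMap.comp_apply, LinearMap.proj_apply,
    Finsupp.lsingle_apply, Finsupp.coe_finsetSum, Finsupp.single_apply]
  refine Finset.sum_eq_zero fun i _ => ?_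
  rw [if_neg]; omega

theorem low_eq_ext {N : ℕ} {v : ℕ →₀ ℝ} (hv : Low N v) : v = ext N (fun i => v i.1) := by
  ext n
  by_cases hn : n < N
  · exact (ext_apply N (fun i => v i.1) ⟨n, hn⟩).symm
  · rw [hv n (not_lt.mp hn), ext_low N _ n (not_lt.mp hn)]

/-- coordinates of index `< N`. -/
noncomputable def cv (N : ℕ) : (ℕ →₀ ℝ) →ₗ[ℝ] (Fin N → ℝ) := LinearMap.pi fun i => rich.c i.1

theorem cv_apply (N : ℕ) (v : ℕ →₀ ℝ) (i : Fin N) : cv N v i = rich.c i.1 v := rfl

theorem norm_cv {N : ℕ} {v : ℕ →₀ ℝ} (hv : Low N v) : ‖cv N v‖ = rich.N v := by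
  apply le_antisymm
  · refine (pi_norm_le_iff_of_nonneg (apply_nonneg _ _)).mpr fun i => ?_
    exact rich.le_N v i.1
  · refine rich.N_le v _ (norm_nonneg _) fun t ht => ?_
    have htN : t < N := by
      by_contra hc; exact ht (hv t (not_lt.mp hc))
    exact norm_le_pi_norm (cv N v) ⟨t, htN⟩

/-- the change of coordinates. -/
noncomputable def CN (N : ℕ) : (Fin N → ℝ) ≃ₗ[ℝ] (Fin N → ℝ) :=
  LinearEquiv.ofInjectiveEndo (cv N ∘ₗ ext N) (by
    rw [← LinearMap.ker_eq_bot, LinearMap.ker_eq_bot']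
    intro x hx
    have h1 : rich.N (ext N x) = 0 := by
      rw [← norm_cv (ext_low N x)]
      rw [LinearMap.comp_apply] at hx
      rw [hx, norm_zero]
    have h2 := rich.eq_zero_of_N _ h1
    funext i
    rw [← ext_apply N x i, h2]; rfl)

theorem CN_apply (N : ℕ) (x : Fin N → ℝ) : CN N x = cv N (ext N x) := rfl

theorem cv_surj (N : ℕ) (l : Fin N → ℝ) : ∃ v, Low N v ∧ cv N v = l :=
  ⟨ext N ((CN N).symm l), ext_low _ _, by rw [← CN_apply, LinearEquiv.apply_symm_apply]⟩

/-- the synthesis map. -/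
noncomputable def bet {G : Type u} [NormedAddCommGroup G] [NormedSpace ℝ G] (g : ℕ → G) :
    (ℕ →₀ ℝ) →ₗ[ℝ] G := Finsupp.linearCombination ℝ g

theorem bet_single {G : Type u} [NormedAddCommGroup G] [NormedSpace ℝ G] (g : ℕ → G) (n : ℕ) :
    bet g (Finsupp.single n 1) = g n := by
  simp [bet]

/-- `bet g` only depends on the first terms. -/
theorem bet_congr {G : Type u} [NormedAddCommGroup G] [NormedSpace ℝ G] {g g' : ℕ → G} {N : ℕ}
    (h : ∀ n < N, g' n = g n) {v : ℕ →₀ ℝ} (hv : Low N v) : bet g' v = bet g v := by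
  simp only [bet, Finsupp.linearCombination_apply, Finsupp.sum]
  refine Finset.sum_congr rfl fun n hn => ?_
  have : n < N := by
    by_contra hc
    exact (Finsupp.mem_support_iff.mp hn) (hv n (not_lt.mp hc))
  rw [h n this]

/-- The frame condition. -/
def Frame {G : Type u} [NormedAddCommGroup G] [NormedSpace ℝ G] (g : ℕ → G) (N : ℕ) (κ : ℝ) :
    Prop :=
  ∀ v, Low N v → rich.N v ≤ κ * ‖bet g v‖ ∧ ‖bet g v‖ ≤ κ * rich.N v

theorem rat_approx (x η : ℝ) (hη : 0 < η) : ∃ q : ℚ, |(q : ℝ)| ≤ |x| ∧ |(q : ℝ) - x| ≤ η := by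
  rcases lt_trichotomy x 0 with h | h | h
  · obtain ⟨q, h1, h2⟩ := exists_rat_btwn (show x < min 0 (x + η) from lt_min h (by linarith))
    have h3 : (q : ℝ) < 0 := lt_of_lt_of_le h2 (min_le_left _ _)
    have h4 : (q : ℝ) < x + η := lt_of_lt_of_le h2 (min_le_right _ _)
    refine ⟨q, ?_, ?_⟩
    · rw [abs_of_neg h3, abs_of_neg h]; linarith
    · rw [abs_le]; constructor <;> linarith
  · exact ⟨0, by simp [h], by simp [h, hη.le]⟩
  · obtain ⟨q, h1, h2⟩ := exists_rat_btwn (show max 0 (x - η) < x from max_lt h (by linarith))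
    have h3 : 0 < (q : ℝ) := lt_of_le_of_lt (le_max_left _ _) h1
    have h4 : x - η < (q : ℝ) := lt_of_le_of_lt (le_max_right _ _) h1
    refine ⟨q, ?_, ?_⟩
    · rw [abs_of_pos h3, abs_of_pos h]; linarith
    · rw [abs_le]; constructor <;> linarith

/-- Distinct indices realising prescribed rows. -/
theorem rows_exist (r : ℕ → ℕ →₀ ℚ) (hr : ∀ j, l1 (r j) ≤ 1) (N : ℕ) :
    ∃ n : ℕ → ℕ, StrictMono n ∧ (∀ j, N ≤ n j) ∧ ∀ j, rich.lam (n j) = r j := by
  choose f hf1 hf2 using fun (j M : ℕ) => rich_exists (r j) (hr j) M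
  let n : ℕ → ℕ := fun j => Nat.rec (f 0 N) (fun j m => f (j + 1) (m + 1)) j
  have hn : ∀ j, n (j + 1) = f (j + 1) (n j + 1) := fun j => rfl
  have hmono : StrictMono n := strictMono_nat_of_lt_succ fun j => by
    rw [hn]; exact lt_of_lt_of_le (Nat.lt_succ_self _) (hf1 _ _)
  refine ⟨n, hmono, fun j => (hf1 0 N).trans (hmono.monotone (Nat.zero_le j)), fun j => ?_⟩
  cases j with
  | zero => exact hf2 0 N
  | succ j => rw [hn]; exact hf2 _ _

open Classical in
/-- recursive extension of the functionals. -/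
noncomputable def hh {G : Type u} [NormedAddCommGroup G] [NormedSpace ℝ G]
    (base : ℕ → Option (StrongDual ℝ G)) (n : ℕ) : StrongDual ℝ G :=
  match base n with
  | some f => f
  | none => ∑ s ∈ (rich.lam n).support.attach, ((rich.lam n s.1 : ℚ) : ℝ) • hh base s.1
termination_by n
decreasing_by exact rich.lt n s.1 (Finsupp.mem_support_iff.mp s.2)

theorem hh_some {G : Type u} [NormedAddCommGroup G] [NormedSpace ℝ G]
    (base : ℕ → Option (StrongDual ℝ G)) (n : ℕ) (f : StrongDual ℝ G) (h : base n = some f) :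
    hh base n = f := by
  rw [hh, h]

theorem hh_none {G : Type u} [NormedAddCommGroup G] [NormedSpace ℝ G]
    (base : ℕ → Option (StrongDual ℝ G)) (n : ℕ) (h : base n = none) (y : G) :
    hh base n y = (rich.lam n).sum (fun s q => (q : ℝ) * hh base s y) := by
  rw [hh, h]
  simp only [FunLike.coe_sum, Finset.sum_apply,
    FunLike.coe_smul, Pi.smul_apply, smul_eq_mul, Finsupp.sum]
  exact Finset.sum_attach (rich.lam n).support
    (fun s => ((rich.lam n s : ℚ) : ℝ) * hh base s y)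

end Gur
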