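import Pool.Agent.Helper87.GurStep

namespace Gur

universe u

open Finset

/-- constants of the recursion. -/
noncomputable def kap (k : ℕ) : ℝ := 2 - 1 / ((k : ℝ) + 1)

theorem kap_zero : kap 0 = 1 := by norm_num [kap]

theorem kap_lt (k : ℕ) : kap k < kap (k + 1) := by
  unfold kap
  have h1 : (0 : ℝ) < (k : ℝ) + 1 := by positivity
  have : 1 / (((k + 1 : ℕ) : ℝ) + 1) < 1 / ((k : ℝ) + 1) := by
    apply one_div_lt_one_div_of_lt h1
    push_cast; linarith
  linarith

theorem one_le_kap (k : ℕ) : 1 ≤ kap k := by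
  unfold kap
  have h1 : (0 : ℝ) < (k : ℝ) + 1 := by positivity
  have : 1 / ((k : ℝ) + 1) ≤ 1 := by
    rw [div_le_one h1]; linarith [(Nat.cast_nonneg k : (0 : ℝ) ≤ k)]
  linarith

theorem kap_le (k : ℕ) : kap k ≤ 2 := by
  unfold kap
  have : 0 ≤ 1 / ((k : ℝ) + 1) := by positivity
  linarith

theorem gurarii_iso_rich {G : Type u} [NormedAddCommGroup G] [NormedSpace ℝ G]
    (hG : IsGurarii G) : Nonempty (G ≃L[ℝ] X rich.N) := by
  have := hG.complete
  have := hG.separable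
  let z : ℕ → G := TopologicalSpace.denseSeq G
  have hz : DenseRange z := TopologicalSpace.denseRange_denseSeq G
  let P : ℕ → (ℕ × (ℕ → G)) → Prop := fun k s => Frame s.2 s.1 (kap k)
  have hstep : ∀ k (s : ℕ × (ℕ → G)), P k s → ∃ s' : ℕ × (ℕ → G), P (k + 1) s' ∧ s.1 < s'.1 ∧
      (∀ n < s.1, s'.2 n = s.2 n) ∧ ∃ v, Low s'.1 v ∧ bet s'.2 v = z k := by
    intro k s hs
    obtain ⟨N', g', h1, h2, h3, h4⟩ :=
      step hG s.1 s.2 (kap k) (kap (k + 1)) (one_le_kap k) (kap_lt k) hs (z k)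
    exact ⟨(N', g'), h3, h1, h2, h4⟩
  choose nxt hn1 hn2 hn3 hn4 using hstep
  have hbase : P 0 (0, fun _ => 0) := by
    intro v hv
    have : v = 0 := by
      ext n; exact hv n (Nat.zero_le n)
    subst this
    simp
  let S : (k : ℕ) → {s : ℕ × (ℕ → G) // P k s} := fun k =>
    Nat.rec (motive := fun k => {s : ℕ × (ℕ → G) // P k s}) ⟨(0, fun _ => 0), hbase⟩
      (fun k s => ⟨nxt k s.1 s.2, hn1 k s.1 s.2⟩) k
  have hS : ∀ k, (S (k + 1)).1 = nxt k (S k).1 (S k).2 := fun k => rfl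
  let Nk : ℕ → ℕ := fun k => (S k).1.1
  let gk : ℕ → ℕ → G := fun k => (S k).1.2
  have hNlt : ∀ k, Nk k < Nk (k + 1) := by
    intro k
    show (S k).1.1 < (S (k + 1)).1.1
    rw [hS]; exact hn2 _ _ _
  have hNmono : StrictMono Nk := strictMono_nat_of_lt_succ hNlt
  have hkN : ∀ k, k ≤ Nk k := fun k => hNmono.le_apply
  have hgs : ∀ k, ∀ n < Nk k, gk (k + 1) n = gk k n := by
    intro k n hn
    show (S (k + 1)).1.2 n = (S k).1.2 n
    rw [hS]; exact hn3 _ _ _ n hn
  have hgs' : ∀ k m, ∀ n < Nk k, gk (k + m) n = gk k n := by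
    intro k m n hn
    induction m with
    | zero => rfl
    | succ m ih =>
      rw [← Nat.add_assoc, hgs (k + m) n (lt_of_lt_of_le hn (hNmono.monotone (by omega))), ih]
  let g : ℕ → G := fun n => gk (n + 1) n
  have hg : ∀ k, ∀ n < Nk k, g n = gk k n := by
    intro k n hn
    show gk (n + 1) n = gk k n
    rcases le_total k (n + 1) with h | h
    · obtain ⟨m, hm⟩ := Nat.exists_eq_add_of_le h
      rw [hm]; exact hgs' k m n hn
    · obtain ⟨m, hm⟩ := Nat.exists_eq_add_of_le h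
      rw [hm]
      exact (hgs' (n + 1) m n (lt_of_lt_of_le (Nat.lt_succ_self n) (hkN _))).symm
  have hframe : ∀ v, rich.N v ≤ 2 * ‖bet g v‖ ∧ ‖bet g v‖ ≤ 2 * rich.N v := by
    intro v
    -- choose a stage
    obtain ⟨k, hk⟩ : ∃ k, Low (Nk k) v := by
      refine ⟨(∑ m ∈ v.support, m) + 1, fun n hn => ?_⟩
      by_contra hc
      have h1 : n ≤ ∑ m ∈ v.support, m :=
        Finset.single_le_sum (f := fun m => m) (fun _ _ => Nat.zero_le _)
          (Finsupp.mem_support_iff.mpr hc)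
      have h2 := hkN ((∑ m ∈ v.support, m) + 1)
      omega
    have h1 : bet g v = bet (gk k) v := bet_congr (hg k) hk
    have h2 : Frame (gk k) (Nk k) (kap k) := (S k).2
    obtain ⟨h3, h4⟩ := h2 v hk
    rw [h1]
    constructor
    · exact h3.trans (mul_le_mul_of_nonneg_right (kap_le k) (norm_nonneg _))
    · exact h4.trans (mul_le_mul_of_nonneg_right (kap_le k) (apply_nonneg _ _))
  have hdense : DenseRange (bet g) := by
    refine hz.mono ?_
    rintro _ ⟨k, rfl⟩
    obtain ⟨v, hv, hvz⟩ := hn4 k (S k).1 (S k).2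
    rw [← hS] at hv hvz
    refine ⟨v, ?_⟩
    rw [← hvz]
    exact bet_congr (hg (k + 1)) hv
  refine iso_of_dense (LinearEquiv.refl ℝ _) (bet g) (emb rich.N) hdense (dense_emb _) 2 ?_ ?_
  · intro v; rw [norm_emb]; exact (hframe v).2
  · intro v; rw [norm_emb]; exact (hframe v).1

end Gur
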