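import Pool.Agent.Helper87.GurFrame

namespace Gur

universe u

open Finset

theorem abs_sum_row {N : ℕ} (φ : (Fin N → ℝ) →ₗ[ℝ] ℝ) (h : ∀ l, |φ l| ≤ ‖l‖) :
    ∑ m, |φ (Pi.single m 1)| ≤ 1 := by
  classical
  let s : Fin N → ℝ := fun m => if 0 ≤ φ (Pi.single m 1) then 1 else -1
  have h1 : φ s = ∑ m, |φ (Pi.single m 1)| := by
    have : s = ∑ m, s m • (Pi.single m (1 : ℝ) : Fin N → ℝ) := by
      funext k
      simp [Finset.sum_apply, Pi.single_apply]
    rw [this, map_sum]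
    refine Finset.sum_congr rfl fun m _ => ?_
    rw [map_smul, smul_eq_mul]
    show (if 0 ≤ φ (Pi.single m 1) then (1 : ℝ) else -1) * _ = _
    split_ifs with hc
    · rw [abs_of_nonneg hc, one_mul]
    · rw [abs_of_neg (not_le.mp hc)]; ring
  have h2 : ‖s‖ ≤ 1 := by
    refine (pi_norm_le_iff_of_nonneg zero_le_one).mpr fun m => ?_
    show ‖(if 0 ≤ φ (Pi.single m 1) then (1 : ℝ) else -1)‖ ≤ 1
    split_ifs <;> simp
  rw [← h1]
  exact (le_abs_self _).trans ((h s).trans h2)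

theorem apply_eq_sum {N : ℕ} (φ : (Fin N → ℝ) →ₗ[ℝ] ℝ) (l : Fin N → ℝ) :
    φ l = ∑ m, l m * φ (Pi.single m 1) := by
  classical
  have : l = ∑ m, l m • (Pi.single m (1 : ℝ) : Fin N → ℝ) := by
    funext k
    simp [Finset.sum_apply, Pi.single_apply]
  conv_lhs => rw [this, map_sum]
  refine Finset.sum_congr rfl fun m _ => ?_
  rw [map_smul, smul_eq_mul]

/-- finite rational row. -/
noncomputable def ratRow {N : ℕ} (r : Fin N → ℚ) : ℕ →₀ ℚ := ∑ m, Finsupp.single m.1 (r m)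

theorem l1_ratRow {N : ℕ} (r : Fin N → ℚ) : l1 (ratRow r) ≤ ∑ m, |r m| := by
  unfold ratRow
  refine (Finset.le_sum_of_subadditive l1 l1_zero.le l1_add _ _).trans ?_
  simp only [l1_single]
  exact le_rfl

theorem sum_ratRow {N : ℕ} (r : Fin N → ℚ) (f : ℕ → ℝ) :
    (ratRow r).sum (fun s q => (q : ℝ) * f s) = ∑ m, (r m : ℝ) * f m.1 := by
  unfold ratRow
  rw [← Finsupp.sum_finsetSum_index (by simp) (by intro a b c; push_cast; ring)]
  refine Finset.sum_congr rfl fun m _ => ?_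
  rw [Finsupp.sum_single_index (by simp)]

theorem step {G : Type u} [NormedAddCommGroup G] [NormedSpace ℝ G] (hG : IsGurarii G)
    (N : ℕ) (g : ℕ → G) (κ κ' : ℝ) (hκ : 1 ≤ κ) (hκ' : κ < κ') (hf : Frame g N κ) (z : G) :
    ∃ (N' : ℕ) (g' : ℕ → G), N < N' ∧ (∀ n < N, g' n = g n) ∧ Frame g' N' κ' ∧
      ∃ v, Low N' v ∧ bet g' v = z := by
  classical
  have hκ0 : 0 < κ := by linarith
  -- constants
  set k2 : ℝ := (κ + κ') / 2 with hk2
  have hk2a : κ < k2 := by rw [hk2]; linarith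
  have hk2b : k2 < κ' := by rw [hk2]; linarith
  have hk20 : 0 < k2 := by linarith
  set d : ℝ := κ⁻¹ - k2⁻¹ with hd
  have hd0 : 0 < d := by
    rw [hd, sub_pos]; exact inv_strictAnti₀ hκ0 hk2a
  set ε : ℝ := d / 2 with hε
  have hε0 : 0 < ε := by positivity
  set η : ℝ := min (d / (2 * κ)) ((k2 - κ) / κ) with hη
  have hη0 : 0 < η := lt_min (by positivity) (div_pos (by linarith) hκ0)
  have hη1 : η * κ ≤ d / 2 := by
    calc η * κ ≤ d / (2 * κ) * κ := mul_le_mul_of_nonneg_right (min_le_left _ _) hκ0.le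
      _ = d / 2 := by field_simp
  have hη2 : η * κ ≤ k2 - κ := by
    calc η * κ ≤ (k2 - κ) / κ * κ := mul_le_mul_of_nonneg_right (min_le_right _ _) hκ0.le
      _ = k2 - κ := by field_simp
  have hinv : κ⁻¹ ≤ 1 := inv_le_one_of_one_le₀ hκ
  have hinv0 : 0 < κ⁻¹ := inv_pos.mpr hκ0
  -- coordinate functionals
  have hct : ∀ m : Fin N, ∃ F : StrongDual ℝ G, ‖F‖ ≤ κ ∧
      ∀ x : Fin N → ℝ, F (bet g (ext N x)) = rich.c m.1 (ext N x) := fun m =>
    hahn_banach_coord (bet g ∘ₗ ext N) (rich.c m.1 ∘ₗ ext N) κ hκ0.le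
      (fun x => (rich.le_N _ _).trans (hf _ (ext_low N x)).1)
  choose ct hct1 hct2 using hct
  have hct3 : ∀ m v, Low N v → ct m (bet g v) = rich.c m.1 v := by
    intro m v hv
    rw [low_eq_ext hv]; exact hct2 m _
  have hct4 : ∀ m y, |ct m y| ≤ κ * ‖y‖ := fun m y => (ct m).le_of_opNorm_le (hct1 m) y
  -- the subspace
  let T : ((Fin N → ℝ) × ℝ) →ₗ[ℝ] G :=
    (bet g ∘ₗ ext N).coprod (LinearMap.toSpanSingleton ℝ G z)
  let Y : Submodule ℝ G := LinearMap.range T
  have hYv : ∀ v, Low N v → bet g v ∈ Y := by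
    intro v hv
    refine ⟨(fun i => v i.1, 0), ?_⟩
    simp only [T, LinearMap.coprod_apply, LinearMap.comp_apply, map_zero, add_zero]
    rw [← low_eq_ext hv]
  have hYz : z ∈ Y := ⟨(0, 1), by simp [T]⟩
  obtain ⟨J, ψ, hψ1, hψ2⟩ := norming Y ε hε0
  -- the dual map
  let γ0 : (Fin N → ℝ) →ₗ[ℝ] G := bet g ∘ₗ ext N ∘ₗ (CN N).symm.toLinearMap
  have hγ0 : ∀ l, ‖γ0 l‖ ≤ κ * ‖l‖ := by
    intro l
    have h1 := (hf _ (ext_low N ((CN N).symm l))).2
    rw [← norm_cv (ext_low N _), ← CN_apply, LinearEquiv.apply_symm_apply] at h1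
    exact h1
  have hγ0b : ∀ v, Low N v → γ0 (cv N v) = bet g v := by
    intro v hv
    show bet g (ext N ((CN N).symm (cv N v))) = bet g v
    have : cv N v = CN N (fun i => v i.1) := by
      rw [CN_apply, ← low_eq_ext hv]
    rw [this, LinearEquiv.symm_apply_apply, ← low_eq_ext hv]
  -- rows
  let φ : Fin J → (Fin N → ℝ) →ₗ[ℝ] ℝ := fun j => κ⁻¹ • ((ψ j).toLinearMap ∘ₗ γ0)
  have hφ : ∀ j l, φ j l = κ⁻¹ * ψ j (γ0 l) := fun j l => rfl
  have hφ1 : ∀ j l, |φ j l| ≤ ‖l‖ := by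
    intro j l
    rw [hφ, abs_mul, abs_of_pos hinv0]
    have h1 : |ψ j (γ0 l)| ≤ 1 * ‖γ0 l‖ := (ψ j).le_of_opNorm_le (hψ1 j) _
    have h2 := hγ0 l
    calc κ⁻¹ * |ψ j (γ0 l)| ≤ κ⁻¹ * (κ * ‖l‖) := by
          refine mul_le_mul_of_nonneg_left ?_ hinv0.le
          linarith
      _ = ‖l‖ := by field_simp
  let row : Fin J → Fin N → ℝ := fun j m => φ j (Pi.single m 1)
  have hrow : ∀ j, ∑ m, |row j m| ≤ 1 := fun j => abs_sum_row (φ j) (hφ1 j)
  choose rq hrq1 hrq2 using fun (j : Fin J) (m : Fin N) =>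
    rat_approx (row j m) (η / (N + 1)) (by positivity)
  have hrqs : ∀ j, ∑ m, |(rq j m : ℝ) - row j m| ≤ η := by
    intro j
    calc ∑ m, |(rq j m : ℝ) - row j m| ≤ ∑ _m : Fin N, η / (N + 1) :=
          Finset.sum_le_sum fun m _ => hrq2 j m
      _ = N * (η / (N + 1)) := by simp
      _ ≤ (N + 1) * (η / (N + 1)) := by
          refine mul_le_mul_of_nonneg_right (by linarith) (by positivity)
      _ = η := by field_simp
  let R : ℕ → ℕ →₀ ℚ := fun j => if hj : j < J then ratRow (rq ⟨j, hj⟩) else 0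
  have hR : ∀ j : Fin J, R j.1 = ratRow (rq j) := fun j => by simp [R]
  have hR1 : ∀ j, l1 (R j) ≤ 1 := by
    intro j
    by_cases hj : j < J
    · simp only [R, hj, dif_pos]
      refine (l1_ratRow _).trans ?_
      have : ((∑ m, |rq ⟨j, hj⟩ m| : ℚ) : ℝ) ≤ 1 := by
        push_cast
        exact (Finset.sum_le_sum fun m _ => hrq1 _ m).trans (hrow _)
      exact_mod_cast this
    · simp only [R, hj, dif_neg, not_false_eq_true]
      rw [l1_zero]; exact zero_le_one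
  obtain ⟨nn, hnn, hnnN, hnnR⟩ := rows_exist R hR1 N
  -- the functionals
  let el : Fin J → StrongDual ℝ G := fun j =>
    κ⁻¹ • ψ j + ∑ m, ((rq j m : ℝ) - row j m) • ct m
  have hel : ∀ j y, el j y = κ⁻¹ * ψ j y + ∑ m, ((rq j m : ℝ) - row j m) * ct m y := by
    intro j y
    simp [el]
  have hel1 : ∀ j y, |∑ m, ((rq j m : ℝ) - row j m) * ct m y| ≤ η * κ * ‖y‖ := by
    intro j y
    calc |∑ m, ((rq j m : ℝ) - row j m) * ct m y|
        ≤ ∑ m, |((rq j m : ℝ) - row j m) * ct m y| := Finset.abs_sum_le_sum_abs _ _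
      _ ≤ ∑ m, |(rq j m : ℝ) - row j m| * (κ * ‖y‖) := by
          refine Finset.sum_le_sum fun m _ => ?_
          rw [abs_mul]
          exact mul_le_mul_of_nonneg_left (hct4 m y) (abs_nonneg _)
      _ = (∑ m, |(rq j m : ℝ) - row j m|) * (κ * ‖y‖) := by rw [Finset.sum_mul]
      _ ≤ η * (κ * ‖y‖) := mul_le_mul_of_nonneg_right (hrqs j) (by positivity)
      _ = _ := by ring
  have hel2 : ∀ j y, |el j y| ≤ k2 * ‖y‖ := by
    intro j y
    rw [hel]
    have h1 : |ψ j y| ≤ 1 * ‖y‖ := (ψ j).le_of_opNorm_le (hψ1 j) _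
    have h2 : |κ⁻¹ * ψ j y| ≤ ‖y‖ := by
      rw [abs_mul, abs_of_pos hinv0]
      nlinarith [abs_nonneg (ψ j y), norm_nonneg y]
    have h3 := abs_add_le (κ⁻¹ * ψ j y) (∑ m, ((rq j m : ℝ) - row j m) * ct m y)
    have h4 := hel1 j y
    have h5 : (1 + η * κ) * ‖y‖ ≤ k2 * ‖y‖ :=
      mul_le_mul_of_nonneg_right (by linarith) (norm_nonneg y)
    linarith
  have hel3 : ∀ j v, Low N v → el j (bet g v) = rich.c (nn j.1) v := by
    intro j v hv
    rw [hel, rich.c_apply, hnnR, hR, sum_ratRow, hv _ (hnnN _), zero_add]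
    have h1 : κ⁻¹ * ψ j (bet g v) = ∑ m, rich.c m.1 v * row j m := by
      rw [← hγ0b v hv, ← hφ, apply_eq_sum]
      rfl
    rw [h1, ← Finset.sum_add_distrib]
    refine Finset.sum_congr rfl fun m _ => ?_
    rw [hct3 m v hv]; ring
  -- recursive extension
  let base : ℕ → Option (StrongDual ℝ G) := fun n =>
    if h : n < N then some (ct ⟨n, h⟩)
    else if h : ∃ j : Fin J, nn j.1 = n then some (el h.choose) else none
  have base1 : ∀ n (h : n < N), base n = some (ct ⟨n, h⟩) := fun n h => by simp [base, h]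
  have base2 : ∀ j : Fin J, base (nn j.1) = some (el j) := by
    intro j
    have h1 : ¬ nn j.1 < N := not_lt.mpr (hnnN _)
    have h2 : ∃ i : Fin J, nn i.1 = nn j.1 := ⟨j, rfl⟩
    simp only [base, h1, dif_neg, not_false_eq_true]
    rw [dif_pos h2]
    have h3 : h2.choose = j := Fin.ext (hnn.injective h2.choose_spec)
    rw [h3]
  have base3 : ∀ n, ¬ n < N → (¬ ∃ j : Fin J, nn j.1 = n) → base n = none := by
    intro n h1 h2
    simp only [base, h1, h2, dif_neg, not_false_eq_true]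
  have hh1 : ∀ n v, Low N v → hh base n (bet g v) = rich.c n v := by
    intro n v hv
    induction n using Nat.strong_induction_on with
    | _ n ih =>
      by_cases h1 : n < N
      · rw [hh_some base n _ (base1 n h1)]; exact hct3 _ v hv
      · by_cases h2 : ∃ j : Fin J, nn j.1 = n
        · obtain ⟨j, rfl⟩ := h2
          rw [hh_some base _ _ (base2 j)]; exact hel3 j v hv
        · rw [hh_none base n (base3 n h1 h2), rich.c_apply, hv n (not_lt.mp h1), zero_add]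
          unfold Finsupp.sum
          refine Finset.sum_congr rfl fun s hs => ?_
          simp only []
          rw [ih s (rich.lt n s (Finsupp.mem_support_iff.mp hs))]
  have hh2 : ∀ n y, |hh base n y| ≤ k2 * ‖y‖ := by
    intro n y
    have hn : 0 ≤ ‖y‖ := norm_nonneg y
    induction n using Nat.strong_induction_on with
    | _ n ih =>
      by_cases h1 : n < N
      · rw [hh_some base n _ (base1 n h1)]
        refine (hct4 _ y).trans ?_
        exact mul_le_mul_of_nonneg_right hk2a.le hn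
      · by_cases h2 : ∃ j : Fin J, nn j.1 = n
        · obtain ⟨j, rfl⟩ := h2
          rw [hh_some base _ _ (base2 j)]; exact hel2 j y
        · rw [hh_none base n (base3 n h1 h2)]
          exact rich.sum_le n _ _ (by positivity) fun s hs => ih s (rich.lt n s hs)
  -- the new stage
  set N' : ℕ := nn J + 1 with hN'
  have hNN' : N < N' := Nat.lt_succ_of_le (hnnN J)
  let h : Y →ₗ[ℝ] (Fin N' → ℝ) :=
    LinearMap.pi fun i => (hh base i.1).toLinearMap ∘ₗ Y.subtype
  have h_apply : ∀ y i, h y i = hh base i.1 (y : G) := fun y i => rfl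
  have h1 : ∀ y, ‖h y‖ ≤ k2 * ‖y‖ := by
    intro y
    refine (pi_norm_le_iff_of_nonneg (by positivity)).mpr fun i => ?_
    exact hh2 i.1 y
  have h2 : ∀ y, ‖y‖ ≤ k2 * ‖h y‖ := by
    intro y
    have e1 := hψ2 y.1 y.2
    have e2 : ‖fun j => ψ j (y : G)‖ ≤ κ * (‖h y‖ + η * κ * ‖y‖) := by
      refine (pi_norm_le_iff_of_nonneg (by positivity)).mpr fun j => ?_
      have hj : nn j.1 < N' := by
        rw [hN']; exact Nat.lt_succ_of_lt (hnn j.2)
      have e3 : |el j (y : G)| ≤ ‖h y‖ := by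
        have := norm_le_pi_norm (h y) ⟨nn j.1, hj⟩
        rw [h_apply, hh_some base _ _ (base2 j)] at this
        exact this
      have e4 := hel1 j (y : G)
      have e5 := hel j (y : G)
      have e6 : ψ j (y : G) = κ * (el j (y : G) -
          ∑ m, ((rq j m : ℝ) - row j m) * ct m (y : G)) := by
        rw [e5]; field_simp; ring
      show |ψ j (y : G)| ≤ _
      rw [e6, abs_mul, abs_of_pos hκ0]
      refine mul_le_mul_of_nonneg_left ?_ hκ0.le
      refine (abs_sub _ _).trans ?_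
      exact add_le_add e3 e4
    have hy0 : 0 ≤ ‖y‖ := norm_nonneg y
    have e7 : (1 - ε) * ‖y‖ ≤ κ * (‖h y‖ + η * κ * ‖y‖) := e1.trans e2
    have e8 : k2⁻¹ * ‖y‖ ≤ ‖h y‖ := by
      have e9 : κ⁻¹ * ((1 - ε) * ‖y‖) ≤ ‖h y‖ + η * κ * ‖y‖ := by
        calc κ⁻¹ * ((1 - ε) * ‖y‖) ≤ κ⁻¹ * (κ * (‖h y‖ + η * κ * ‖y‖)) :=
              mul_le_mul_of_nonneg_left e7 hinv0.le
          _ = _ := by field_simp
      have e10 : k2⁻¹ ≤ κ⁻¹ * (1 - ε) - η * κ := by
        have : κ⁻¹ * ε ≤ ε := by nlinarith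
        have : k2⁻¹ = κ⁻¹ - d := by rw [hd]; ring
        rw [this]; nlinarith
      nlinarith
    calc ‖y‖ = k2 * (k2⁻¹ * ‖y‖) := by field_simp
      _ ≤ k2 * ‖h y‖ := mul_le_mul_of_nonneg_left e8 hk20.le
  have hδ : 0 < κ' / k2 - 1 := by
    rw [sub_pos, lt_div_iff₀ hk20]; linarith
  obtain ⟨γ, hγ1, hγ2⟩ := hG.iso_ext (κ' / k2 - 1) hδ k2 (by linarith) Y (Fin N' → ℝ) h h1 h2
  have hconst : k2 * (1 + (κ' / k2 - 1)) = κ' := by field_simp; ring
  rw [hconst] at hγ1
  let g' : ℕ → G := fun n => γ (cv N' (Finsupp.single n 1))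
  have hbet : ∀ v, bet g' v = γ (cv N' v) := by
    intro v
    have : bet g' = γ ∘ₗ cv N' := by
      apply Finsupp.lhom_ext'
      intro n
      apply LinearMap.ext_ring
      show bet g' (Finsupp.single n 1) = γ (cv N' (Finsupp.single n 1))
      rw [bet_single]
    rw [this]; rfl
  refine ⟨N', g', hNN', ?_, ?_, ?_⟩
  · intro n hn
    have hlow : Low N (Finsupp.single n (1 : ℝ)) := by
      intro k hk
      rw [Finsupp.single_apply, if_neg]; omega
    have e1 : cv N' (Finsupp.single n 1) = h ⟨bet g (Finsupp.single n 1), hYv _ hlow⟩ := by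
      funext i
      rw [h_apply, cv_apply]
      exact (hh1 i.1 _ hlow).symm
    show γ (cv N' (Finsupp.single n 1)) = g n
    rw [e1, hγ2]
    exact bet_single g n
  · intro v hv
    rw [hbet, ← norm_cv hv]
    exact hγ1 _
  · obtain ⟨v, hv, hvz⟩ := cv_surj N' (h ⟨z, hYz⟩)
    refine ⟨v, hv, ?_⟩
    rw [hbet, hvz, hγ2]

end Gur
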