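import Pool.Agent.Helper87.GurBasic

namespace Gur

open Finset

/-- A triangular system of rational rows on a countable index type. -/
structure Sys (ι : Type) where
  lam : ι → (ι →₀ ℚ)
  rk : ι → ℕ
  inj : Function.Injective rk
  lt : ∀ t s, lam t s ≠ 0 → rk s < rk t
  le_one : ∀ t, ((lam t).sum fun _ q => |q|) ≤ 1

namespace Sys

variable {ι : Type} (A : Sys ι)

/-- The coordinate functionals of a triangular system. -/
noncomputable def c (A : Sys ι) (t : ι) : (ι →₀ ℝ) →ₗ[ℝ] ℝ :=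
  Finsupp.lapply t + ∑ s ∈ (A.lam t).support.attach, ((A.lam t s.1 : ℚ) : ℝ) • A.c s.1
termination_by A.rk t
decreasing_by exact A.lt t s.1 (Finsupp.mem_support_iff.mp s.2)

theorem c_apply (t : ι) (v : ι →₀ ℝ) :
    A.c t v = v t + (A.lam t).sum (fun s q => (q : ℝ) * A.c s v) := by
  rw [c]
  simp only [LinearMap.add_apply, Finsupp.lapply_apply, LinearMap.coe_sum, Finset.sum_apply,
    LinearMap.smul_apply, smul_eq_mul, Finsupp.sum]
  congr 1
  exact Finset.sum_attach (A.lam t).support (fun s => ((A.lam t s : ℚ) : ℝ) * A.c s v)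

theorem induction {P : ι → Prop} (h : ∀ t, (∀ s, A.rk s < A.rk t → P s) → P t) (t : ι) : P t :=
  (measure A.rk).wf.induction t h

theorem sum_le (t : ι) (f : ι → ℝ) (M : ℝ) (hM : 0 ≤ M) (h : ∀ s, A.lam t s ≠ 0 → |f s| ≤ M) :
    |(A.lam t).sum (fun s q => (q : ℝ) * f s)| ≤ M := by
  unfold Finsupp.sum
  calc |∑ s ∈ (A.lam t).support, ((A.lam t s : ℚ) : ℝ) * f s|
      ≤ ∑ s ∈ (A.lam t).support, |((A.lam t s : ℚ) : ℝ) * f s| := Finset.abs_sum_le_sum_abs _ _
    _ ≤ ∑ s ∈ (A.lam t).support, |((A.lam t s : ℚ) : ℝ)| * M := by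
        refine Finset.sum_le_sum fun s hs => ?_
        rw [abs_mul]
        exact mul_le_mul_of_nonneg_left (h s (by simpa using hs)) (abs_nonneg _)
    _ = (((A.lam t).sum fun _ q => |q| : ℚ) : ℝ) * M := by
        rw [← Finset.sum_mul]; simp [Finsupp.sum]
    _ ≤ 1 * M := by
        refine mul_le_mul_of_nonneg_right ?_ hM
        exact_mod_cast A.le_one t
    _ = M := one_mul M

theorem c_le (v : ι →₀ ℝ) (M : ℝ) (hM : 0 ≤ M) (h : ∀ t, v t ≠ 0 → |A.c t v| ≤ M) (t : ι) :
    |A.c t v| ≤ M := by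
  induction t using A.induction with
  | h t ih =>
    by_cases ht : v t = 0
    · rw [c_apply, ht, zero_add]
      exact A.sum_le t _ M hM fun s hs => ih s (A.lt t s hs)
    · exact h t ht

theorem bdd (v : ι →₀ ℝ) : BddAbove (Set.range fun t => |A.c t v|) := by
  refine ⟨∑ s ∈ v.support, |A.c s v|, ?_⟩
  rintro _ ⟨t, rfl⟩
  refine A.c_le v _ (Finset.sum_nonneg fun _ _ => abs_nonneg _) (fun t ht => ?_) t
  exact Finset.single_le_sum (f := fun s => |A.c s v|) (fun _ _ => abs_nonneg _)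
    (by simpa using ht)

/-- The norm attached to a triangular system. -/
noncomputable def N (A : Sys ι) : Seminorm ℝ (ι →₀ ℝ) :=
  Seminorm.of (fun v => ⨆ t, |A.c t v|)
    (by
      intro v w
      rcases isEmpty_or_nonempty ι with h | h
      · simp
      · refine ciSup_le fun t => ?_
        rw [map_add]
        refine (abs_add_le _ _).trans (add_le_add ?_ ?_)
        · exact le_ciSup (A.bdd v) t
        · exact le_ciSup (A.bdd w) t)
    (by
      intro a v
      simp only [map_smul, smul_eq_mul, abs_mul, Real.norm_eq_abs]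
      exact (Real.mul_iSup_of_nonneg (abs_nonneg a) _).symm)

theorem N_def (v : ι →₀ ℝ) : A.N v = ⨆ t, |A.c t v| := rfl

theorem le_N (v : ι →₀ ℝ) (t : ι) : |A.c t v| ≤ A.N v := le_ciSup (A.bdd v) t

theorem N_le (v : ι →₀ ℝ) (M : ℝ) (hM : 0 ≤ M) (h : ∀ t, v t ≠ 0 → |A.c t v| ≤ M) :
    A.N v ≤ M := by
  rw [N_def]
  exact Real.iSup_le (fun t => A.c_le v M hM h t) hM

theorem eq_zero_of_N (v : ι →₀ ℝ) (h : A.N v = 0) : v = 0 := by
  have h0 : ∀ t, A.c t v = 0 := fun t => by
    have := A.le_N v t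
    rw [h] at this
    exact abs_nonpos_iff.mp this
  ext t
  have := A.c_apply t v
  simp only [h0, mul_zero, Finsupp.sum_fun_zero, add_zero] at this
  exact this.symm

end Sys

/-- Change of index: if `B` restricted to the range of `j` is `A`. -/
theorem Sys.c_comap {ι κ : Type} (A : Sys ι) (B : Sys κ) (j : ι → κ) (hj : Function.Injective j)
    (h1 : ∀ t s, B.lam (j t) (j s) = A.lam t s)
    (h2 : ∀ t m, m ∉ Set.range j → B.lam (j t) m = 0)
    (v : κ →₀ ℝ) (w : ι →₀ ℝ) (hvw : ∀ t, v (j t) = w t) (t : ι) : B.c (j t) v = A.c t w := by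
  induction t using A.induction with
  | h t ih =>
    have hB : B.lam (j t) = (A.lam t).mapDomain j := by
      ext m
      by_cases hm : m ∈ Set.range j
      · obtain ⟨s, rfl⟩ := hm
        rw [Finsupp.mapDomain_apply hj, h1]
      · rw [Finsupp.mapDomain_of_notMem_range _ _ hm, h2 t m hm]
    rw [B.c_apply, A.c_apply, hB, Finsupp.sum_mapDomain_index_inj hj, hvw]
    congr 1
    unfold Finsupp.sum
    refine Finset.sum_congr rfl fun s hs => ?_
    simp only []
    rw [ih s (A.lt t s (by simpa using hs))]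

/-- The data of a splitting of a system `B` on `κ` into a predecessor-closed part `A` and the
rest `R`. -/
structure Split {ι ρ κ : Type} (A : Sys ι) (R : Sys ρ) (B : Sys κ) (σ : ι ⊕ ρ ≃ κ) : Prop where
  h1 : ∀ t s, B.lam (σ (Sum.inl t)) (σ (Sum.inl s)) = A.lam t s
  h2 : ∀ t k, B.lam (σ (Sum.inl t)) (σ (Sum.inr k)) = 0
  h3 : ∀ k k', B.lam (σ (Sum.inr k)) (σ (Sum.inr k')) = R.lam k k'

theorem Split.c_inl {ι ρ κ : Type} {A : Sys ι} {R : Sys ρ} {B : Sys κ} {σ : ι ⊕ ρ ≃ κ}
    (h : Split A R B σ) (v : κ →₀ ℝ) (w : ι →₀ ℝ) (hvw : ∀ t, v (σ (Sum.inl t)) = w t) (t : ι) :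
    B.c (σ (Sum.inl t)) v = A.c t w := by
  refine Sys.c_comap A B (fun t => σ (Sum.inl t)) (σ.injective.comp Sum.inl_injective) h.h1 ?_
    v w hvw t
  intro t m hm
  obtain ⟨x, rfl⟩ := σ.surjective m
  rcases x with s | k
  · exact absurd ⟨s, rfl⟩ hm
  · exact h.h2 t k

theorem Split.c_inr {ι ρ κ : Type} {A : Sys ι} {R : Sys ρ} {B : Sys κ} {σ : ι ⊕ ρ ≃ κ}
    (h : Split A R B σ) (v : κ →₀ ℝ) (hv : ∀ t, v (σ (Sum.inl t)) = 0)
    (w : ρ →₀ ℝ) (hvw : ∀ k, v (σ (Sum.inr k)) = w k) (k : ρ) :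
    B.c (σ (Sum.inr k)) v = R.c k w := by
  have h0 : ∀ t, B.c (σ (Sum.inl t)) v = 0 := fun t => by
    rw [h.c_inl v 0 (by simpa using hv) t, map_zero]
  have hinj : Function.Injective fun k => σ (Sum.inr k) := σ.injective.comp Sum.inr_injective
  induction k using R.induction with
  | h k ih =>
    rw [B.c_apply, R.c_apply, hvw]
    congr 1
    -- split the sum
    have e1 : (B.lam (σ (Sum.inr k))).sum (fun s q => (q : ℝ) * B.c s v)
        = ∑ s ∈ (R.lam k).support.map ⟨fun k => σ (Sum.inr k), hinj⟩,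
            ((B.lam (σ (Sum.inr k)) s : ℚ) : ℝ) * B.c s v := by
      unfold Finsupp.sum
      symm
      refine Finset.sum_subset ?_ ?_
      · intro s hs
        simp only [Finset.mem_map, Finsupp.mem_support_iff, Function.Embedding.coeFn_mk] at hs
        obtain ⟨k', hk', rfl⟩ := hs
        simp only [Finsupp.mem_support_iff]
        rw [h.h3]; exact hk'
      · intro s hs hs'
        obtain ⟨x, rfl⟩ := σ.surjective s
        rcases x with s | k'
        · rw [h0, mul_zero]
        · exfalso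
          apply hs'
          simp only [Finset.mem_map, Finsupp.mem_support_iff, Function.Embedding.coeFn_mk]
          refine ⟨k', ?_, rfl⟩
          rw [← h.h3]; simpa using hs
    rw [e1, Finset.sum_map]
    unfold Finsupp.sum
    refine Finset.sum_congr rfl fun k' hk' => ?_
    simp only [Function.Embedding.coeFn_mk]
    rw [h.h3, ih k' (R.lt k k' (by simpa using hk'))]

/-- The algebraic splitting. -/
noncomputable def splitEquiv {ι ρ κ : Type} (σ : ι ⊕ ρ ≃ κ) :
    (κ →₀ ℝ) ≃ₗ[ℝ] (ι →₀ ℝ) × (ρ →₀ ℝ) :=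
  (Finsupp.domLCongr σ.symm).trans (Finsupp.sumFinsuppLEquivProdFinsupp ℝ)

theorem splitEquiv_fst {ι ρ κ : Type} (σ : ι ⊕ ρ ≃ κ) (v : κ →₀ ℝ) (t : ι) :
    (splitEquiv σ v).1 t = v (σ (Sum.inl t)) := by
  simp [splitEquiv]

theorem splitEquiv_snd {ι ρ κ : Type} (σ : ι ⊕ ρ ≃ κ) (v : κ →₀ ℝ) (k : ρ) :
    (splitEquiv σ v).2 k = v (σ (Sum.inr k)) := by
  simp [splitEquiv]

theorem Split.iso {ι ρ κ : Type} {A : Sys ι} {R : Sys ρ} {B : Sys κ} {σ : ι ⊕ ρ ≃ κ}
    (h : Split A R B σ) : Nonempty (X B.N ≃L[ℝ] X A.N × X R.N) := by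
  -- the two pieces
  set e := splitEquiv σ with he
  have hx : ∀ v, B.N (e.symm ((e v).1, 0)) = A.N (e v).1 := by
    intro v
    have key : ∀ t, B.c (σ (Sum.inl t)) (e.symm ((e v).1, 0)) = A.c t (e v).1 := by
      intro t
      refine h.c_inl _ _ ?_ t
      intro t
      rw [← splitEquiv_fst, ← he, LinearEquiv.apply_symm_apply]
    apply le_antisymm
    · refine B.N_le _ _ (apply_nonneg _ _) ?_
      intro m hm
      obtain ⟨x, rfl⟩ := σ.surjective m
      rcases x with t | k
      · rw [key]; exact A.le_N _ t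
      · exfalso; apply hm
        rw [← splitEquiv_snd, ← he, LinearEquiv.apply_symm_apply]; rfl
    · refine A.N_le _ _ (apply_nonneg _ _) ?_
      intro t _
      rw [← key]; exact B.le_N _ _
  have hy : ∀ v, B.N (e.symm (0, (e v).2)) = R.N (e v).2 := by
    intro v
    have key : ∀ k, B.c (σ (Sum.inr k)) (e.symm (0, (e v).2)) = R.c k (e v).2 := by
      intro k
      refine h.c_inr _ ?_ _ ?_ k
      · intro t
        rw [← splitEquiv_fst, ← he, LinearEquiv.apply_symm_apply]; rfl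
      · intro t
        rw [← splitEquiv_snd, ← he, LinearEquiv.apply_symm_apply]
    apply le_antisymm
    · refine B.N_le _ _ (apply_nonneg _ _) ?_
      intro m hm
      obtain ⟨x, rfl⟩ := σ.surjective m
      rcases x with t | k
      · exfalso; apply hm
        rw [← splitEquiv_fst, ← he, LinearEquiv.apply_symm_apply]; rfl
      · rw [key]; exact R.le_N _ k
    · refine R.N_le _ _ (apply_nonneg _ _) ?_
      intro t _
      rw [← key]; exact B.le_N _ _
  have hsum : ∀ v, v = e.symm ((e v).1, 0) + e.symm (0, (e v).2) := by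
    intro v
    rw [← map_add]
    simp
  have hA : ∀ v, A.N (e v).1 ≤ B.N v := by
    intro v
    refine A.N_le _ _ (apply_nonneg _ _) ?_
    intro t _
    rw [← h.c_inl v (e v).1 (fun t => (splitEquiv_fst σ v t).symm) t]
    exact B.le_N _ _
  have hR : ∀ v, R.N (e v).2 ≤ 2 * B.N v := by
    intro v
    rw [← hy v]
    have : e.symm (0, (e v).2) = v - e.symm ((e v).1, 0) := by
      nth_rewrite 2 [hsum v]; abel
    rw [this]
    calc B.N (v - e.symm ((e v).1, 0)) ≤ B.N v + B.N (e.symm ((e v).1, 0)) := map_sub_le_add _ _ _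
      _ ≤ B.N v + B.N v := by rw [hx]; exact add_le_add le_rfl (hA v)
      _ = 2 * B.N v := by ring
  refine X_iso_prod B.N A.N R.N e 2 ?_ ?_ hR
  · intro v
    calc B.N v ≤ B.N (e.symm ((e v).1, 0)) + B.N (e.symm (0, (e v).2)) := by
          conv_lhs => rw [hsum v]
          exact map_add_le_add _ _ _
      _ = A.N (e v).1 + R.N (e v).2 := by rw [hx, hy]
      _ ≤ max (A.N (e v).1) (R.N (e v).2) + max (A.N (e v).1) (R.N (e v).2) :=
          add_le_add (le_max_left _ _) (le_max_right _ _)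
      _ = 2 * _ := by ring
  · intro v
    have := hA v
    have h0 : 0 ≤ B.N v := apply_nonneg _ _
    linarith

end Gur
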