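import Pool.Agent.Helper87.GurIso

namespace Gur

open Finset

section lists
variable {α : Type}

/-- initial segments of an infinite sequence, most recent entry first. -/
def br (β : ℕ → α) : ℕ → List α
  | 0 => []
  | k + 1 => β k :: br β k

theorem br_length (β : ℕ → α) (k : ℕ) : (br β k).length = k := by
  induction k with
  | zero => rfl
  | succ k ih => simp [br, ih]

theorem br_inj (β : ℕ → α) : Function.Injective (br β) := by
  intro a b h
  have := congrArg List.length h
  rwa [br_length, br_length] at this

theorem br_drop (β : ℕ → α) (k i : ℕ) (h : i ≤ k) : (br β k).drop (k - i) = br β i := by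
  induction k with
  | zero =>
    have : i = 0 := by omega
    subst this; rfl
  | succ k ih =>
    rcases Nat.lt_or_ge i (k + 1) with h1 | h1
    · have : k + 1 - i = (k - i) + 1 := by omega
      rw [this]
      show (β k :: br β k).drop ((k - i) + 1) = br β i
      rw [List.drop_succ_cons]
      exact ih (by omega)
    · have : i = k + 1 := by omega
      subst this; simp

theorem suffix_br (β : ℕ → α) (k : ℕ) (s : List α) (h : s <:+ br β k) : ∃ i ≤ k, s = br β i := by
  induction k with
  | zero =>
    refine ⟨0, le_rfl, ?_⟩
    exact List.suffix_nil.mp h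
  | succ k ih =>
    rcases List.suffix_cons_iff.mp h with h1 | h1
    · exact ⟨k + 1, le_rfl, h1⟩
    · obtain ⟨i, hi, rfl⟩ := ih h1
      exact ⟨i, by omega, rfl⟩

theorem br_suffix (β : ℕ → α) {i k : ℕ} (h : i ≤ k) : br β i <:+ br β k := by
  rw [← br_drop β k i h]; exact List.drop_suffix _ _

theorem encode_lt_of_suffix [Encodable α] {s t : List α} (h : s <:+ t) (hne : s ≠ t) :
    Encodable.encode s < Encodable.encode t := by
  induction t with
  | nil => exact absurd (List.suffix_nil.mp h) hne
  | cons a l ih =>
    have h0 : Encodable.encode l < Encodable.encode (a :: l) := by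
      rw [Encodable.encode_list_cons]
      exact Nat.lt_succ_of_le (Nat.right_le_pair _ _)
    rcases List.suffix_cons_iff.mp h with h1 | h1
    · exact absurd h1 hne
    · by_cases hs : s = l
      · rw [hs]; exact h0
      · exact (ih h1 hs).trans h0

theorem suffix_total {a b t : List α} (ha : a <:+ t) (hb : b <:+ t) : a <:+ b ∨ b <:+ a :=
  List.suffix_or_suffix_of_suffix ha hb

end lists

open Classical in
/-- rows of the tree system. -/
noncomputable def tlam (T : List ℕ → Bool) (t : List ℕ) : List ℕ →₀ ℚ :=
  if ∀ s, s <:+ t → T s = true then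
    (rich.lam t.length).mapDomain (fun i => t.drop (t.length - i))
  else 0

theorem tlam_suffix {T : List ℕ → Bool} {t s : List ℕ} (h : tlam T t s ≠ 0) :
    s <:+ t ∧ s ≠ t := by
  unfold tlam at h
  split_ifs at h with hc
  · by_contra hn
    apply h
    refine Finsupp.mapDomain_of_not_mem_image_support ?_
    rintro ⟨i, hi, rfl⟩
    apply hn
    have hi' : i < t.length := rich.lt _ _ (Finsupp.mem_support_iff.mp hi)
    refine ⟨List.drop_suffix _ _, fun he => ?_⟩
    have := congrArg List.length he
    rw [List.length_drop] at this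
    omega
  · exact absurd rfl h

/-- The tree system. -/
noncomputable def tsys (T : List ℕ → Bool) : Sys (List ℕ) where
  lam := tlam T
  rk := Encodable.encode
  inj := Encodable.encode_injective
  lt t s h := encode_lt_of_suffix (tlam_suffix h).1 (tlam_suffix h).2
  le_one t := by
    show l1 (tlam T t) ≤ 1
    unfold tlam
    split_ifs with hc
    · exact (l1_mapDomain _ _).trans (rich.le_one _)
    · rw [l1_zero]; exact zero_le_one

/-- Coordinates only depend on the values at suffixes. -/
theorem tsys_c_congr (T : List ℕ → Bool) (v w : List ℕ →₀ ℝ) (t : List ℕ)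
    (h : ∀ s, s <:+ t → v s = w s) : (tsys T).c t v = (tsys T).c t w := by
  induction t using (tsys T).induction with
  | h t ih =>
    rw [(tsys T).c_apply, (tsys T).c_apply, h t List.suffix_rfl]
    congr 1
    unfold Finsupp.sum
    refine Finset.sum_congr rfl fun s hs => ?_
    have hs' := Finsupp.mem_support_iff.mp hs
    simp only []
    rw [ih s ((tsys T).lt t s hs') (fun r hr => h r (hr.trans (tlam_suffix hs').1))]

/-- Coordinates only depend on the tree at suffixes. -/
theorem tsys_c_tree (T T' : List ℕ → Bool) (v : List ℕ →₀ ℝ) (t : List ℕ)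
    (h : ∀ s, s <:+ t → T s = T' s) : (tsys T).c t v = (tsys T').c t v := by
  induction t using (tsys T).induction with
  | h t ih =>
    have hl : (tsys T).lam t = (tsys T').lam t := by
      show tlam T t = tlam T' t
      unfold tlam
      have : (∀ s, s <:+ t → T s = true) ↔ (∀ s, s <:+ t → T' s = true) := by
        constructor
        · intro h1 s hs; rw [← h s hs]; exact h1 s hs
        · intro h1 s hs; rw [h s hs]; exact h1 s hs
      by_cases hc : ∀ s, s <:+ t → T s = true
      · rw [if_pos hc, if_pos (this.mp hc)]
      · rw [if_neg hc, if_neg (fun h2 => hc (this.mpr h2))]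
    rw [(tsys T).c_apply, (tsys T').c_apply, ← hl]
    congr 1
    unfold Finsupp.sum
    refine Finset.sum_congr rfl fun s hs => ?_
    have hs' := Finsupp.mem_support_iff.mp hs
    simp only []
    rw [ih s ((tsys T).lt t s hs') (fun r hr => h r (hr.trans (tlam_suffix hs').1))]

theorem tsys_N_tree (T T' : List ℕ → Bool) (v : List ℕ →₀ ℝ)
    (h : ∀ t, v t ≠ 0 → ∀ s, s <:+ t → T s = T' s) : (tsys T).N v = (tsys T').N v := by
  apply le_antisymm
  · refine (tsys T).N_le v _ (apply_nonneg _ _) fun t ht => ?_
    rw [tsys_c_tree T T' v t (h t ht)]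
    exact (tsys T').le_N v t
  · refine (tsys T').N_le v _ (apply_nonneg _ _) fun t ht => ?_
    rw [← tsys_c_tree T T' v t (h t ht)]
    exact (tsys T).le_N v t

/-- Continuous dependence on the tree. -/
theorem tsys_N_continuous (v : List ℕ →₀ ℝ) : Continuous fun T : List ℕ → Bool => (tsys T).N v := by
  refine IsLocallyConstant.continuous ?_
  rw [IsLocallyConstant.iff_exists_open]
  intro T
  let K : Set (List ℕ) := ⋃ t ∈ v.support, {s | s <:+ t}
  have hK : K.Finite := by
    refine Set.Finite.biUnion v.support.finite_toSet fun t _ => ?_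
    refine (List.finite_toSet t.tails).subset fun s hs => ?_
    exact (List.mem_tails s t).mpr hs
  refine ⟨{T' | ∀ s ∈ K, T' s = T s}, ?_, fun s _ => rfl, ?_⟩
  · have : {T' : List ℕ → Bool | ∀ s ∈ K, T' s = T s} = ⋂ s ∈ K, {T' | T' s = T s} := by
      ext T'; simp
    rw [this]
    refine hK.isOpen_biInter fun s _ => ?_
    exact (isOpen_discrete ({T s} : Set Bool)).preimage
      (f := fun T' : List ℕ → Bool => T' s) (continuous_apply s)
  · intro T' hT'
    refine tsys_N_tree T' T v fun t ht s hs => ?_
    refine hT' s ?_
    simp only [K, Set.mem_iUnion]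
    exact ⟨t, Finsupp.mem_support_iff.mpr ht, hs⟩

/-- Ill-founded trees give the rich space. -/
theorem iso_of_branch (T : List ℕ → Bool) (β : ℕ → ℕ) (hβ : ∀ k, T (br β k) = true) :
    Nonempty (X (tsys T).N ≃L[ℝ] X rich.N) := by
  have hlam : ∀ k, (tsys T).lam (br β k) = (rich.lam k).mapDomain (br β) := by
    intro k
    show tlam T (br β k) = _
    unfold tlam
    rw [if_pos, br_length]
    · refine Finsupp.mapDomain_congr fun i hi => ?_
      exact br_drop β k i (rich.lt k i (Finsupp.mem_support_iff.mp hi)).le
    · intro s hs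
      obtain ⟨i, _, rfl⟩ := suffix_br β k s hs
      exact hβ i
  have hs := split_of_inj rich (tsys T) (br β) (br_inj β)
    (fun t s => by rw [hlam, Finsupp.mapDomain_apply (br_inj β)])
    (fun t m hm => by rw [hlam, Finsupp.mapDomain_of_notMem_range _ _ hm])
  obtain ⟨e1⟩ := hs.iso
  obtain ⟨e2⟩ := rich_absorb
    ((tsys T).restr (fun k : ((Set.range (br β))ᶜ : Set (List ℕ)) => k.1) Subtype.val_injective)
  exact ⟨e1.trans ((ContinuousLinearEquiv.prodComm ℝ _ _).trans e2.symm)⟩

end Gur
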