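import Pool.Agent.Helper87.GurDyad

namespace Gur

open MeasureTheory

theorem br_eq_imp {α : Type} (a b : ℕ → α) (k : ℕ) (h : br a k = br b k) :
    ∀ i < k, a i = b i := by
  induction k with
  | zero => intro i hi; exact absurd hi (Nat.not_lt_zero i)
  | succ k ih =>
    intro i hi
    have h' : a k :: br a k = b k :: br b k := h
    rw [List.cons.injEq] at h'
    rcases Nat.lt_succ_iff_lt_or_eq.mp hi with h1 | h1
    · exact ih h'.2 i h1
    · rw [h1]; exact h'.1

/-- Ill-founded trees. -/
def IF : Set (List ℕ → Bool) := {T | ∃ β : ℕ → ℕ, ∀ k, T (br β k) = true}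

/-- the diagonal tree. -/
def dT (x : ℕ → Bool) : List ℕ → Bool := fun t => x (Encodable.encode (br x t.length, t))

theorem meas_br (k : ℕ) (u : List Bool) : MeasurableSet {x : ℕ → Bool | br x k = u} := by
  induction k generalizing u with
  | zero => exact MeasurableSet.const ([] = u)
  | succ k ih =>
    cases u with
    | nil =>
      have : {x : ℕ → Bool | br x (k + 1) = []} = ∅ := by
        ext x; simp [br]
      rw [this]; exact MeasurableSet.empty
    | cons b l =>
      have : {x : ℕ → Bool | br x (k + 1) = b :: l} = {x | x k = b} ∩ {x | br x k = l} := by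
        ext x; simp [br]
      rw [this]
      have hm : Measurable fun x : ℕ → Bool => x k := measurable_pi_apply k
      exact (hm (measurableSet_singleton b)).inter (ih l)

theorem measurable_dT : Measurable dT := by
  rw [measurable_pi_iff]
  intro t
  refine measurable_to_bool ?_
  have : (fun x => dT x t) ⁻¹' {true} = ⋃ u : List Bool,
      ({x : ℕ → Bool | br x t.length = u} ∩ {x | x (Encodable.encode (u, t)) = true}) := by
    ext x
    simp [dT]
  rw [this]
  refine MeasurableSet.iUnion fun u => (meas_br _ _).inter ?_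
  have hm : Measurable fun x : ℕ → Bool => x (Encodable.encode (u, t)) :=
    measurable_pi_apply (Encodable.encode (u, t))
  exact hm (measurableSet_singleton true)

theorem tendsto_of_br {α : Type} [TopologicalSpace α] (a : ℕ → ℕ → α) (b : ℕ → α)
    (h : ∀ k, br (a k) k = br b k) : Filter.Tendsto a Filter.atTop (nhds b) := by
  rw [tendsto_pi_nhds]
  intro i
  refine tendsto_const_nhds.congr' ?_
  filter_upwards [Filter.eventually_gt_atTop i] with k hk
  exact (br_eq_imp _ _ k (h k) i hk).symm

theorem IF_not_measurable : ¬ MeasurableSet IF := by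
  classical
  intro hIF
  have hD : MeasurableSet (dT ⁻¹' IFᶜ) := measurable_dT hIF.compl
  have hcm : TopologicalSpace.IsCompletelyMetrizableSpace (ℕ → Bool) := inferInstance
  have hps : PolishSpace (ℕ → Bool) := inferInstance
  have hA := hD.analyticSet
  rw [AnalyticSet] at hA
  rcases hA with h0 | ⟨h, hc, hr⟩
  · have hz : (fun _ => false) ∈ dT ⁻¹' IFᶜ := by
      rintro ⟨β, hβ⟩
      have := hβ 0
      simp [dT] at this
    rw [h0] at hz
    exact hz
  · let z : ℕ → Bool := fun n => decide (∃ (u : List Bool) (t : List ℕ),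
      n = Encodable.encode (u, t) ∧ ∃ β : ℕ → ℕ, br β t.length = t ∧ br (h β) t.length = u)
    have hzt : ∀ t : List ℕ, dT z t = true ↔
        ∃ β : ℕ → ℕ, br β t.length = t ∧ br (h β) t.length = br z t.length := by
      intro t
      show z (Encodable.encode (br z t.length, t)) = true ↔ _
      simp only [z, decide_eq_true_eq]
      constructor
      · rintro ⟨u, t', he, β, h1, h2⟩
        have := Encodable.encode_injective he
        rw [Prod.mk.injEq] at this
        obtain ⟨rfl, rfl⟩ := this
        exact ⟨β, h1, h2⟩
      · rintro ⟨β, h1, h2⟩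
        exact ⟨_, t, rfl, β, h1, h2⟩
    have hiff : dT z ∈ IF ↔ z ∈ Set.range h := by
      constructor
      · rintro ⟨β, hβ⟩
        have h1 : ∀ k, ∃ γ : ℕ → ℕ, br γ k = br β k ∧ br (h γ) k = br z k := by
          intro k
          obtain ⟨γ, h2, h3⟩ := (hzt _).mp (hβ k)
          rw [br_length] at h2 h3
          exact ⟨γ, h2, h3⟩
        choose γ h2 h3 using h1
        have h4 := tendsto_of_br γ β h2
        have h5 := tendsto_of_br (fun k => h (γ k)) z h3
        have h6 : Filter.Tendsto (fun k => h (γ k)) Filter.atTop (nhds (h β)) :=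
          (hc.tendsto β).comp h4
        exact ⟨β, tendsto_nhds_unique h6 h5⟩
      · rintro ⟨β, hβ⟩
        refine ⟨β, fun k => (hzt _).mpr ⟨β, ?_, ?_⟩⟩
        · rw [br_length]
        · rw [br_length, hβ]
    have h7 : z ∈ Set.range h ↔ dT z ∉ IF := by
      rw [hr]; rfl
    rw [← hiff] at h7
    exact (iff_not_self h7)

end Gur
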