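import Pool.Agent.Helper87.GurTrees

namespace Gur

open Finset

theorem toR_apply (v : ℕ →₀ ℚ) (n : ℕ) : toR v n = (v n : ℝ) := rfl

theorem sub_sup_le (p : Seminorm ℝ (ℕ →₀ ℝ)) (x : ℕ →₀ ℝ) :
    p x ≤ ∑ n ∈ x.support, |x n| * p (Finsupp.single n 1) := by
  have h : x = ∑ n ∈ x.support, x n • Finsupp.single n (1 : ℝ) := by
    conv_lhs => rw [← Finsupp.sum_single x]
    unfold Finsupp.sum
    refine Finset.sum_congr rfl fun n _ => ?_
    rw [Finsupp.smul_single, smul_eq_mul, mul_one]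
  conv_lhs => rw [h]
  refine (Finset.le_sum_of_subadditive p (map_zero p).le (map_add_le_add p) _ _).trans ?_
  refine Finset.sum_le_sum fun n _ => ?_
  rw [map_smul_eq_mul, Real.norm_eq_abs]

/-- rational approximation inside a fixed support. -/
theorem exists_toR_near (x : ℕ →₀ ℝ) (w : ℕ → ℝ) (hw : ∀ n, 0 ≤ w n) (ε : ℝ) (hε : 0 < ε) :
    ∃ v : ℕ →₀ ℚ, (∀ n, x n = 0 → v n = 0) ∧ ∑ n ∈ x.support, |x n - v n| * w n ≤ ε := by
  classical
  set C : ℝ := ∑ n ∈ x.support, w n + 1 with hC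
  have hC0 : 0 < C := by
    have : 0 ≤ ∑ n ∈ x.support, w n := Finset.sum_nonneg fun n _ => hw n
    linarith
  choose q _ hq using fun n : ℕ => rat_approx (x n) (ε / C) (by positivity)
  refine ⟨Finsupp.onFinset x.support (fun n => if x n = 0 then 0 else q n) ?_, ?_, ?_⟩
  · intro n hn
    rw [Finsupp.mem_support_iff]
    intro h0
    exact hn (if_pos h0)
  · intro n hn
    rw [Finsupp.onFinset_apply, if_pos hn]
  · calc ∑ n ∈ x.support, |x n - _| * w n ≤ ∑ n ∈ x.support, (ε / C) * w n := by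
          refine Finset.sum_le_sum fun n hn => mul_le_mul_of_nonneg_right ?_ (hw n)
          rw [Finsupp.onFinset_apply, if_neg (Finsupp.mem_support_iff.mp hn), abs_sub_comm]
          exact hq n
      _ = (ε / C) * ∑ n ∈ x.support, w n := by rw [Finset.mul_sum]
      _ ≤ (ε / C) * C := mul_le_mul_of_nonneg_left (by rw [hC]; linarith) (by positivity)
      _ = ε := by field_simp

theorem ext_unique (p p' : Seminorm ℝ (ℕ →₀ ℝ)) (μ : (ℕ →₀ ℚ) → ℝ) (h : IsExt p μ)
    (h' : IsExt p' μ) : p = p' := by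
  have key : ∀ p p' : Seminorm ℝ (ℕ →₀ ℝ), IsExt p μ → IsExt p' μ → ∀ x, p x ≤ p' x := by
    intro p p' h h' x
    refine le_of_forall_pos_le_add fun ε hε => ?_
    obtain ⟨v, hv1, hv2⟩ := exists_toR_near x
      (fun n => p (Finsupp.single n 1) + p' (Finsupp.single n 1))
      (fun n => add_nonneg (apply_nonneg _ _) (apply_nonneg _ _)) ε hε
    have hsupp : (x - toR v).support ⊆ x.support := by
      intro n hn
      rw [Finsupp.mem_support_iff] at hn ⊢
      intro h0
      apply hn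
      rw [Finsupp.sub_apply, toR_apply, h0, hv1 n h0]; simp
    have hp : ∀ r : Seminorm ℝ (ℕ →₀ ℝ), r (x - toR v) ≤
        ∑ n ∈ x.support, |x n - v n| * r (Finsupp.single n 1) := by
      intro r
      refine (sub_sup_le r _).trans ?_
      refine (Finset.sum_le_sum_of_subset_of_nonneg hsupp fun n _ _ => by positivity).trans ?_
      exact le_of_eq (Finset.sum_congr rfl fun n _ => by rw [Finsupp.sub_apply, toR_apply])
    have h1 : p x ≤ p (x - toR v) + p (toR v) := by
      have := map_add_le_add p (x - toR v) (toR v)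
      rwa [sub_add_cancel] at this
    have h2 : p' (toR v) ≤ p' (x - toR v) + p' x := by
      have := map_sub_le_add p' x (x - toR v)
      rw [sub_sub_cancel] at this
      linarith
    have h3 := hp p
    have h4 := hp p'
    have h5 : ∑ n ∈ x.support, |x n - v n| *
        (p (Finsupp.single n 1) + p' (Finsupp.single n 1)) =
        ∑ n ∈ x.support, |x n - v n| * p (Finsupp.single n 1) +
        ∑ n ∈ x.support, |x n - v n| * p' (Finsupp.single n 1) := by
      rw [← Finset.sum_add_distrib]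
      exact Finset.sum_congr rfl fun n _ => by ring
    rw [h5] at hv2
    rw [h v] at h1
    rw [h' v] at h2
    linarith
  ext x
  exact le_antisymm (key p p' h h' x) (key p' p h' h x)

theorem PN_nonneg {μ : (ℕ →₀ ℚ) → ℝ} (hμ : μ ∈ PN) (x : ℕ →₀ ℚ) : 0 ≤ μ x := by
  have h0 : μ 0 = 0 := by
    have := hμ.2 0 0
    simpa using this
  have h1 : μ (-x) = μ x := by
    have := hμ.2 (-1) x
    simpa using this
  have h2 := hμ.1 x (-x)
  rw [add_neg_cancel, h0, h1] at h2
  linarith

theorem PN_le_sum {μ : (ℕ →₀ ℚ) → ℝ} (hμ : μ ∈ PN) (x : ℕ →₀ ℚ) (s : Finset ℕ)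
    (hs : x.support ⊆ s) :
    μ x ≤ ∑ n ∈ s, |(x n : ℝ)| * μ (Finsupp.single n 1) := by
  classical
  have h0 : μ 0 = 0 := by
    have := hμ.2 0 0
    simpa using this
  have h : x = ∑ n ∈ s, x n • Finsupp.single n (1 : ℚ) := by
    conv_lhs => rw [← Finsupp.sum_single x]
    rw [Finsupp.sum_of_support_subset x hs _ (by simp)]
    refine Finset.sum_congr rfl fun n _ => ?_
    rw [Finsupp.smul_single, smul_eq_mul, mul_one]
  conv_lhs => rw [h]
  refine (Finset.le_sum_of_subadditive μ h0.le hμ.1 s _).trans ?_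
  exact le_of_eq (Finset.sum_congr rfl fun n _ => hμ.2 _ _)

/-- weighted ℓ₁ norm. -/
noncomputable def W (w : ℕ → ℝ) (y : ℕ →₀ ℝ) : ℝ := y.sum fun n a => |a| * w n

theorem W_eq (w : ℕ → ℝ) (y : ℕ →₀ ℝ) (s : Finset ℕ) (hs : y.support ⊆ s) :
    W w y = ∑ n ∈ s, |y n| * w n :=
  Finsupp.sum_of_support_subset y hs _ (by simp)

theorem W_zero (w : ℕ → ℝ) : W w 0 = 0 := by simp [W]

theorem W_add (w : ℕ → ℝ) (hw : ∀ n, 0 ≤ w n) (y z : ℕ →₀ ℝ) : W w (y + z) ≤ W w y + W w z := by
  classical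
  rw [W_eq w (y + z) _ Finsupp.support_add, W_eq w y _ (Finset.subset_union_left (s₂ := z.support)),
    W_eq w z _ (Finset.subset_union_right (s₁ := y.support)), ← Finset.sum_add_distrib]
  refine Finset.sum_le_sum fun n _ => ?_
  rw [← add_mul]
  exact mul_le_mul_of_nonneg_right (abs_add_le _ _) (hw n)

theorem W_smul (w : ℕ → ℝ) (r : ℝ) (y : ℕ →₀ ℝ) : W w (r • y) = |r| * W w y := by
  rw [W_eq w (r • y) y.support Finsupp.support_smul, W_eq w y _ le_rfl, Finset.mul_sum]
  refine Finset.sum_congr rfl fun n _ => ?_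
  rw [Finsupp.smul_apply, smul_eq_mul, abs_mul, mul_assoc]

theorem W_nonneg (w : ℕ → ℝ) (hw : ∀ n, 0 ≤ w n) (y : ℕ →₀ ℝ) : 0 ≤ W w y :=
  Finset.sum_nonneg fun n _ => mul_nonneg (abs_nonneg _) (hw n)

theorem toR_add (v w : ℕ →₀ ℚ) : toR (v + w) = toR v + toR w := by
  ext n; simp [toR_apply]

theorem toR_smul (q : ℚ) (v : ℕ →₀ ℚ) : toR (q • v) = (q : ℝ) • toR v := by
  ext n; simp [toR_apply]

theorem ext_exists {μ : (ℕ →₀ ℚ) → ℝ} (hμ : μ ∈ PN) :
    ∃ p : Seminorm ℝ (ℕ →₀ ℝ), IsExt p μ := by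
  have h0 : μ 0 = 0 := by
    have := hμ.2 0 0
    simpa using this
  set w : ℕ → ℝ := fun n => μ (Finsupp.single n 1) with hw
  have hw0 : ∀ n, 0 ≤ w n := fun n => PN_nonneg hμ _
  let cost : (ℕ →₀ ℝ) → (ℕ →₀ ℚ) → ℝ := fun x v => μ v + W w (x - toR v)
  have hcost : ∀ x v, cost x v = μ v + W w (x - toR v) := fun x v => rfl
  have cost0 : ∀ x v, 0 ≤ cost x v := fun x v =>
    add_nonneg (PN_nonneg hμ v) (W_nonneg w hw0 _)
  have bdd : ∀ x, BddBelow (Set.range (cost x)) := fun x =>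
    ⟨0, by rintro _ ⟨v, rfl⟩; exact cost0 x v⟩
  have toR0 : toR 0 = 0 := by ext n; simp [toR_apply]
  let p : Seminorm ℝ (ℕ →₀ ℝ) := Seminorm.ofSMulLE (fun x => ⨅ v, cost x v)
    (by
      refine le_antisymm ?_ (Real.iInf_nonneg fun v => cost0 0 v)
      refine (ciInf_le (bdd 0) 0).trans ?_
      rw [hcost, h0, toR0, sub_zero, W_zero, add_zero])
    (by
      intro x y
      refine le_ciInf_add_ciInf fun v v' => ?_
      refine (ciInf_le (bdd _) (v + v')).trans ?_
      rw [hcost, hcost, hcost]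
      have e1 : x + y - toR (v + v') = (x - toR v) + (y - toR v') := by rw [toR_add]; abel
      rw [e1]
      have e2 := hμ.1 v v'
      have e3 := W_add w hw0 (x - toR v) (y - toR v')
      linarith)
    (by
      intro r x
      show (⨅ v, cost (r • x) v) ≤ ‖r‖ * ⨅ v, cost x v
      rw [Real.mul_iInf_of_nonneg (norm_nonneg r)]
      refine le_ciInf fun v => ?_
      refine le_of_forall_pos_le_add fun ε hε => ?_
      have hWv : 0 ≤ W w (toR v) := W_nonneg w hw0 _
      obtain ⟨q, hq1, hq2⟩ := rat_approx r (ε / (W w (toR v) + 1)) (by positivity)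
      refine (ciInf_le (bdd _) (q • v)).trans ?_
      rw [hcost, hcost, hμ.2, toR_smul, Real.norm_eq_abs]
      have e1 : r • x - (q : ℝ) • toR v = r • (x - toR v) + (r - (q : ℝ)) • toR v := by
        rw [smul_sub, sub_smul]; abel
      rw [e1]
      have e2 := W_add w hw0 (r • (x - toR v)) ((r - (q : ℝ)) • toR v)
      rw [W_smul, W_smul] at e2
      have e3 : |(q : ℝ)| * μ v ≤ |r| * μ v :=
        mul_le_mul_of_nonneg_right hq1 (PN_nonneg hμ v)
      have e4 : |r - (q : ℝ)| * W w (toR v) ≤ ε := by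
        rw [abs_sub_comm]
        calc |(q : ℝ) - r| * W w (toR v) ≤ ε / (W w (toR v) + 1) * W w (toR v) :=
              mul_le_mul_of_nonneg_right hq2 hWv
          _ ≤ ε / (W w (toR v) + 1) * (W w (toR v) + 1) :=
              mul_le_mul_of_nonneg_left (by linarith) (by positivity)
          _ = ε := by field_simp
      linarith)
  refine ⟨p, fun v => ?_⟩
  show (⨅ u, cost (toR v) u) = μ v
  apply le_antisymm
  · refine (ciInf_le (bdd _) v).trans ?_
    rw [hcost, sub_self, W_zero, add_zero]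
  · refine le_ciInf fun u => ?_
    rw [hcost]
    have e1 : μ v ≤ μ u + μ (v - u) := by
      have := hμ.1 u (v - u)
      rwa [add_sub_cancel] at this
    have e2 := PN_le_sum hμ (v - u) _ le_rfl
    have e3 : W w (toR v - toR u) = ∑ n ∈ (v - u).support, |((v - u) n : ℝ)| * w n := by
      rw [W_eq w _ (v - u).support]
      · refine Finset.sum_congr rfl fun n _ => ?_
        rw [Finsupp.sub_apply, Finsupp.sub_apply, toR_apply, toR_apply]
        push_cast; rfl
      · intro n hn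
        rw [Finsupp.mem_support_iff] at hn ⊢
        intro hc
        apply hn
        rw [Finsupp.sub_apply, toR_apply, toR_apply]
        rw [Finsupp.sub_apply] at hc
        exact_mod_cast hc
    rw [e3]
    linarith

theorem exists_unique_ext {μ : (ℕ →₀ ℚ) → ℝ} (hμ : μ ∈ PN) :
    ∃! p : Seminorm ℝ (ℕ →₀ ℝ), IsExt p μ := by
  obtain ⟨p, hp⟩ := ext_exists hμ
  exact ⟨p, hp, fun p' hp' => ext_unique p' p μ hp' hp⟩

end Gur
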