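import Pool.Agent.Helper87.GurDual

namespace Gur

open Finset

/-- nodes above `t`. -/
def ab (t : List ℕ) : Set (List ℕ) := {s | t <:+ s}

/-- strict predecessors of `u`. -/
def anc (u : List ℕ) : Set (List ℕ) := {r | r <:+ u ∧ r ≠ u}

theorem suffix_antisymm {a b : List ℕ} (h1 : a <:+ b) (h2 : b <:+ a) : a = b :=
  h1.eq_of_length_le h2.length_le

/-- restriction to predecessors is a contraction. -/
theorem N_anc (T : List ℕ → Bool) (u : List ℕ) (v : List ℕ →₀ ℝ) :
    (tsys T).N (fil (anc u) v) ≤ (tsys T).N v := by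
  refine (tsys T).N_le _ _ (apply_nonneg _ _) fun r hr => ?_
  have hr' : r ∈ anc u := by
    by_contra hc; exact hr (fil_not v hc)
  have : (tsys T).c r (fil (anc u) v) = (tsys T).c r v := by
    refine tsys_c_congr T _ _ r fun s hs => fil_mem v ⟨hs.trans hr'.1, fun he => ?_⟩
    subst he
    exact hr'.2 (suffix_antisymm hr'.1 hs)
  rw [this]
  exact (tsys T).le_N v r

/-- bound for coordinates of the restriction to nodes above `u`. -/
theorem c_ab_le (T : List ℕ → Bool) (u s : List ℕ) (hs : u <:+ s) (v : List ℕ →₀ ℝ) :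
    |(tsys T).c s (fil (ab u) v)| ≤ 2 * (tsys T).N v := by
  have h1 : (tsys T).c s (fil (ab u) v) = (tsys T).c s (v - fil (anc u) v) := by
    refine tsys_c_congr T _ _ s fun r hr => ?_
    rw [Finsupp.sub_apply]
    by_cases h2 : u <:+ r
    · have h3 : r ∉ anc u := fun h => h.2 (suffix_antisymm h.1 h2)
      rw [fil_mem v (show r ∈ ab u from h2), fil_not v h3, sub_zero]
    · have h3 : r <:+ u := (suffix_total hr hs).resolve_right h2
      have h4 : r ∈ anc u := ⟨h3, fun he => h2 (he ▸ List.suffix_rfl)⟩
      rw [fil_not v (show r ∉ ab u from h2), fil_mem v h4, sub_self]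
  rw [h1, map_sub]
  have h2 := (tsys T).le_N v s
  have h3 := ((tsys T).le_N (fil (anc u) v) s).trans (N_anc T u v)
  have h4 := abs_sub ((tsys T).c s v) ((tsys T).c s (fil (anc u) v))
  linarith

theorem good_of_children (T : List ℕ → Bool) (f : StrongDual ℝ (Pre (tsys T).N)) (t : List ℕ)
    (h : ∀ n : ℕ, Good (tsys T) f (ab (n :: t))) : Good (tsys T) f (ab t) := by
  classical
  have hU : ab t = {t} ∪ ⋃ n : ℕ, ab (n :: t) := by
    ext s
    simp only [Set.mem_union, Set.mem_singleton_iff, Set.mem_iUnion]
    constructor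
    · intro hs
      by_cases he : s = t
      · exact Or.inl he
      · right
        obtain ⟨l, hl⟩ := (hs : t <:+ s)
        rcases List.eq_nil_or_concat l with h0 | ⟨l', b, h0⟩
        · exfalso; apply he; rw [← hl, h0]; rfl
        · exact ⟨b, l', by rw [← hl, h0]; simp⟩
    · rintro (rfl | ⟨n, hn⟩)
      · exact List.suffix_rfl
      · exact (List.suffix_cons n t).trans hn
  have hdisj : ∀ i k : ℕ, i ≠ k → Disjoint (ab (i :: t)) (ab (k :: t)) := by
    intro i k hik
    rw [Set.disjoint_left]
    intro s h1 h2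
    have h1' : i :: t <:+ s := h1
    have h2' : k :: t <:+ s := h2
    rcases suffix_total h1' h2' with h3 | h3
    · have := h3.eq_of_length (by simp)
      exact hik (by simpa using this)
    · have := h3.eq_of_length (by simp)
      exact hik (by simpa using this.symm)
  rw [hU]
  refine good_union _ _ _ _ ?_ (good_single _ _ _) ?_
  · rw [Set.disjoint_left]
    intro s hs hs'
    rw [Set.mem_singleton_iff] at hs
    subst hs
    simp only [Set.mem_iUnion] at hs'
    obtain ⟨n, hn⟩ := hs'
    have := (hn : n :: s <:+ s).length_le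
    simp at this
  · refine good_iUnion _ _ _ hdisj 2 ?_ h
    intro F w hw
    refine (tsys T).N_le _ _ (by norm_num) fun s hs => ?_
    -- find the block
    have hex : ∃ n ∈ F, s ∈ ab (n :: t) := by
      by_contra hc
      push Not at hc
      apply hs
      rw [Finsupp.coe_finsetSum, Finset.sum_apply]
      exact Finset.sum_eq_zero fun i hi => fil_not _ (hc i hi)
    obtain ⟨n, hn, hsn⟩ := hex
    have hsn' : n :: t <:+ s := hsn
    have hc : (tsys T).c s (∑ i ∈ F, fil (ab (i :: t)) (w i))
        = (tsys T).c s (fil (ab (n :: t)) (w n)) := by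
      refine tsys_c_congr T _ _ s fun r hr => ?_
      rw [Finsupp.coe_finsetSum, Finset.sum_apply]
      refine Finset.sum_eq_single n ?_ ?_
      · intro i _ hin
        refine fil_not _ fun hri => ?_
        exact Set.disjoint_left.mp (hdisj i n hin)
          (show s ∈ ab (i :: t) from (hri : i :: t <:+ r).trans hr) hsn
      · intro h'; exact absurd hn h'
    rw [hc]
    refine (c_ab_le T (n :: t) s hsn' (w n)).trans ?_
    have := hw n hn
    linarith

theorem good_of_not (T : List ℕ → Bool) (f : StrongDual ℝ (Pre (tsys T).N)) (t : List ℕ)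
    (h : ¬ ∀ s, s <:+ t → T s = true) : Good (tsys T) f (ab t) := by
  classical
  have hlam : ∀ s, t <:+ s → (tsys T).lam s = 0 := by
    intro s hs
    show tlam T s = 0
    unfold tlam
    rw [if_neg]
    intro h'
    exact h fun r hr => h' r (hr.trans hs)
  have hc : ∀ s, t <:+ s → ∀ v, (tsys T).c s v = v s := by
    intro s hs v
    rw [(tsys T).c_apply, hlam s hs]
    simp
  have hU : ab t = ⋃ s : (ab t), {s.1} := by
    ext s; simp
  rw [hU]
  refine good_iUnion _ _ (fun s : (ab t) => ({s.1} : Set (List ℕ))) ?_ 1 ?_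
    (fun s => good_single _ _ _)
  · intro i k hik
    rw [Set.disjoint_singleton]
    exact fun he => hik (Subtype.ext he)
  · intro F w hw
    refine (tsys T).N_le _ _ zero_le_one fun s hs => ?_
    have hex : ∃ i ∈ F, s = i.1 := by
      by_contra hc
      push Not at hc
      apply hs
      rw [Finsupp.coe_finsetSum, Finset.sum_apply]
      exact Finset.sum_eq_zero fun i hi => fil_not _ (by simpa using hc i hi)
    obtain ⟨i, hi, rfl⟩ := hex
    have h1 : (∑ k ∈ F, fil ({k.1} : Set (List ℕ)) (w k)) i.1 = w i i.1 := by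
      rw [Finsupp.coe_finsetSum, Finset.sum_apply]
      rw [Finset.sum_eq_single i]
      · exact fil_mem _ (Set.mem_singleton _)
      · intro k _ hki
        refine fil_not _ ?_
        rw [Set.mem_singleton_iff]
        exact fun he => hki (Subtype.ext he.symm)
      · intro h'; exact absurd hi h'
    rw [hc i.1 i.2, h1, ← hc i.1 i.2 (w i)]
    exact ((tsys T).le_N _ _).trans (hw i hi)

theorem good_root (T : List ℕ → Bool) (hT : ¬ ∃ β : ℕ → ℕ, ∀ k, T (br β k) = true)
    (f : StrongDual ℝ (Pre (tsys T).N)) : Good (tsys T) f (ab []) := by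
  by_contra hbad
  have hstep : ∀ t, ¬ Good (tsys T) f (ab t) → ∃ n : ℕ, ¬ Good (tsys T) f (ab (n :: t)) := by
    intro t ht
    by_contra hc
    push Not at hc
    exact ht (good_of_children T f t hc)
  have hstep' : ∀ t, ∃ n : ℕ, ¬ Good (tsys T) f (ab t) → ¬ Good (tsys T) f (ab (n :: t)) := by
    intro t
    by_cases h : Good (tsys T) f (ab t)
    · exact ⟨0, fun h' => absurd h h'⟩
    · obtain ⟨n, hn⟩ := hstep t h
      exact ⟨n, fun _ => hn⟩
  choose nx hnx using hstep'
  let L : ℕ → List ℕ := fun k => Nat.rec [] (fun _ l => nx l :: l) k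
  have hL : ∀ k, L (k + 1) = nx (L k) :: L k := fun k => rfl
  have hbr : ∀ k, br (fun k => nx (L k)) k = L k := by
    intro k
    induction k with
    | zero => rfl
    | succ k ih => rw [br, ih, hL]
  have hbadk : ∀ k, ¬ Good (tsys T) f (ab (L k)) := by
    intro k
    induction k with
    | zero => exact hbad
    | succ k ih => rw [hL]; exact hnx _ ih
  apply hT
  refine ⟨fun k => nx (L k), fun k => ?_⟩
  rw [hbr]
  by_contra hk
  refine hbadk k (good_of_not T f (L k) fun h => hk (h _ List.suffix_rfl))

theorem M_eq_top (T : List ℕ → Bool) (hT : ¬ ∃ β : ℕ → ℕ, ∀ k, T (br β k) = true) :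
    (tsys T).M = ⊤ := by
  rw [eq_top_iff]
  intro f _
  obtain ⟨h, hM, he⟩ := good_root T hT f
  have : h = f := by
    ext x
    have h1 := he ((toPre _).symm x)
    have h2 : fil (ab []) ((toPre (tsys T).N).symm x) = (toPre (tsys T).N).symm x := by
      ext s
      exact fil_mem _ (show s ∈ ab [] from List.nil_suffix)
    rw [h2, LinearEquiv.apply_symm_apply] at h1
    exact h1
  rw [← this]; exact hM

theorem separable_dual (T : List ℕ → Bool) (hT : ¬ ∃ β : ℕ → ℕ, ∀ k, T (br β k) = true) :
    TopologicalSpace.SeparableSpace (StrongDual ℝ (Pre (tsys T).N)) := by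
  rw [← TopologicalSpace.isSeparable_univ_iff]
  have h1 : TopologicalSpace.IsSeparable (Set.range (tsys T).cD) :=
    (Set.countable_range _).isSeparable
  have h2 := h1.span (R := ℝ)
  have h3 := h2.closure
  have h4 : closure ((Submodule.span ℝ (Set.range (tsys T).cD) :
      Submodule ℝ (StrongDual ℝ (Pre (tsys T).N))) : Set (StrongDual ℝ (Pre (tsys T).N)))
      = Set.univ := by
    have := congrArg (fun S : Submodule ℝ (StrongDual ℝ (Pre (tsys T).N)) =>
      (S : Set (StrongDual ℝ (Pre (tsys T).N)))) (M_eq_top T hT)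
    simpa [Sys.M] using this
  rw [h4] at h3
  exact h3

end Gur
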