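import Mathlib

set_option linter.unusedSectionVars false

/-!
# Products of two derangements in 2-transitive groups

For a finite group acting 2-transitively, the number of ways to write `g` as a product of two
derangements is computed from the numbers of fixed points.
-/

namespace Pool.Agent.Helper87.TwoTrans

open Finset

section

variable {G Ω : Type*} [Group G] [Fintype G] [DecidableEq G] [Fintype Ω] [DecidableEq Ω]
  [MulAction G Ω]

/-- number of fixed points -/
def fx (Ω : Type*) [Fintype Ω] [DecidableEq Ω] {G : Type*} [Group G] [MulAction G Ω] (y : G) : ℤ :=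
  ((univ.filter fun a : Ω => y • a = a).card : ℤ)

/-- number of points where `y` and `g` agree -/
def ag (Ω : Type*) [Fintype Ω] [DecidableEq Ω] {G : Type*} [Group G] [MulAction G Ω] (g y : G) : ℤ :=
  ((univ.filter fun a : Ω => y • a = g • a).card : ℤ)

lemma fx_eq (y : G) : fx Ω y = ∑ a : Ω, if y • a = a then (1 : ℤ) else 0 := by
  unfold fx
  rw [Finset.card_filter]
  push_cast
  rfl

lemma ag_eq (g y : G) : ag Ω g y = ∑ a : Ω, if y • a = g • a then (1 : ℤ) else 0 := by
  unfold ag
  rw [Finset.card_filter]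
  push_cast
  rfl

lemma fx_nonneg (y : G) : 0 ≤ fx Ω y := by unfold fx; positivity
lemma ag_nonneg (g y : G) : 0 ≤ ag Ω g y := by unfold ag; positivity

/-- 2-transitivity -/
def TT (G Ω : Type*) [Group G] [MulAction G Ω] : Prop :=
  ∀ a b c d : Ω, a ≠ b → c ≠ d → ∃ g : G, g • a = c ∧ g • b = d

/-- conjugation invariance of transporter sums -/
lemma trans_sum (h2 : TT G Ω) (w : G → ℤ) (hw : ∀ k y : G, w (k * y * k⁻¹) = w y)
    {a b c d : Ω} (hab : a ≠ b) (hcd : c ≠ d) :
    ∑ y : G, (if y • a = b then w y else 0) = ∑ y : G, (if y • c = d then w y else 0) := by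
  obtain ⟨k, h1, h3⟩ := h2 a b c d hab hcd
  refine Fintype.sum_equiv (MulAut.conj k).toEquiv _ _ fun y => ?_
  have e : (MulAut.conj k).toEquiv y = k * y * k⁻¹ := rfl
  rw [e, hw]
  have e2 : ((k * y * k⁻¹) • c = d) ↔ (y • a = b) := by
    rw [← h1, ← h3, mul_smul, mul_smul, inv_smul_smul]
    exact smul_left_cancel_iff k
  simp only [e2]

/-- the sum of a class function over the elements that move `a` to `c ≠ a` -/
lemma trans_class (h2 : TT G Ω) (w : G → ℤ) (hw : ∀ k y : G, w (k * y * k⁻¹) = w y)
    (hD : ∀ y : G, w y ≠ 0 → ∀ a : Ω, y • a ≠ a) {a c : Ω} (hac : a ≠ c) :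
    ((Fintype.card Ω : ℤ) - 1) * ∑ y : G, (if y • a = c then w y else 0) = ∑ y : G, w y := by
  classical
  have h1 : ∑ y : G, w y = ∑ b : Ω, ∑ y : G, (if y • a = b then w y else 0) := by
    rw [Finset.sum_comm]
    refine Finset.sum_congr rfl fun y _ => ?_
    rw [Finset.sum_ite_eq]
    simp
  have h3 : ∀ b : Ω, ∑ y : G, (if y • a = b then w y else 0) =
      (if b = a then 0 else 1) * ∑ y : G, (if y • a = c then w y else 0) := by
    intro b
    by_cases hb : b = a
    · rw [if_pos hb, hb, zero_mul]
      refine Finset.sum_eq_zero fun y _ => ?_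
      split_ifs with h
      · by_contra hne
        exact hD y hne a h
      · rfl
    · rw [if_neg hb, one_mul]
      exact trans_sum h2 w hw (Ne.symm hb) hac
  rw [h1, Finset.sum_congr rfl fun b _ => h3 b, ← Finset.sum_mul]
  congr 1
  have h4 : ∑ b : Ω, (if b = a then (0 : ℤ) else 1) = ∑ b : Ω, (1 - if b = a then (1 : ℤ) else 0) :=
    Finset.sum_congr rfl fun b _ => by split_ifs <;> simp
  rw [h4, Finset.sum_sub_distrib, Finset.sum_ite_eq']
  simp

lemma sum_ag_class (h2 : TT G Ω) (w : G → ℤ) (hw : ∀ k y : G, w (k * y * k⁻¹) = w y)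
    (hD : ∀ y : G, w y ≠ 0 → ∀ a : Ω, y • a ≠ a) (g : G) :
    ((Fintype.card Ω : ℤ) - 1) * ∑ y : G, w y * ag Ω g y
      = ((Fintype.card Ω : ℤ) - fx Ω g) * ∑ y : G, w y := by
  classical
  -- for every point `a`: `(n-1) * S(a, g a) = [g a ≠ a] * ∑ w`
  have key : ∀ a : Ω, ((Fintype.card Ω : ℤ) - 1) * ∑ y : G, (if y • a = g • a then w y else 0)
      = (if g • a = a then 0 else 1) * ∑ y : G, w y := by
    intro a
    by_cases hga : g • a = a
    · rw [if_pos hga, zero_mul, hga]
      have : ∑ y : G, (if y • a = a then w y else 0) = 0 := by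
        refine Finset.sum_eq_zero fun y _ => ?_
        split_ifs with h
        · by_contra hne
          exact hD y hne a h
        · rfl
      rw [this, mul_zero]
    · rw [if_neg hga, one_mul]
      exact trans_class h2 w hw hD (Ne.symm hga)
  have e1 : ∑ y : G, w y * ag Ω g y = ∑ a : Ω, ∑ y : G, (if y • a = g • a then w y else 0) := by
    rw [Finset.sum_comm]
    refine Finset.sum_congr rfl fun y _ => ?_
    rw [ag_eq, Finset.mul_sum]
    refine Finset.sum_congr rfl fun a _ => ?_
    split_ifs <;> simp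
  rw [e1, Finset.mul_sum, Finset.sum_congr rfl fun a _ => key a, ← Finset.sum_mul]
  congr 1
  rw [fx_eq]
  have : (Fintype.card Ω : ℤ) = ∑ _a : Ω, (1 : ℤ) := by simp
  rw [this, ← Finset.sum_sub_distrib]
  refine Finset.sum_congr rfl fun a _ => ?_
  split_ifs <;> simp

/-- the number of elements that move a pair to a pair -/
lemma trans_pair (h2 : TT G Ω) {a b c d : Ω} (hab : a ≠ b) (hcd : c ≠ d) :
    ((Fintype.card Ω : ℤ) * ((Fintype.card Ω : ℤ) - 1)) *
      ∑ y : G, (if y • a = c ∧ y • b = d then (1 : ℤ) else 0) = Fintype.card G := by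
  classical
  set S : Ω → Ω → ℤ := fun c d => ∑ y : G, (if y • a = c ∧ y • b = d then (1 : ℤ) else 0) with hS
  have hconst : ∀ c' d' : Ω, c' ≠ d' → S c' d' = S c d := by
    intro c' d' hcd'
    obtain ⟨k, h1, h3⟩ := h2 c' d' c d hcd' hcd
    refine Fintype.sum_equiv (Equiv.mulLeft k) _ _ fun y => ?_
    have e : (Equiv.mulLeft k) y = k * y := rfl
    rw [e]
    have e2 : ((k * y) • a = c ∧ (k * y) • b = d) ↔ (y • a = c' ∧ y • b = d') := by
      rw [mul_smul, mul_smul, ← h1, ← h3, smul_left_cancel_iff, smul_left_cancel_iff]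
    simp only [e2]
  have hdiag : ∀ c' : Ω, S c' c' = 0 := by
    intro c'
    refine Finset.sum_eq_zero fun y _ => ?_
    rw [if_neg]
    rintro ⟨h1, h3⟩
    exact hab ((smul_left_cancel_iff y).1 (h1.trans h3.symm))
  have htot : (Fintype.card G : ℤ) = ∑ c' : Ω, ∑ d' : Ω, S c' d' := by
    have h1 : ∀ y : G, ∑ c' : Ω, ∑ d' : Ω, (if y • a = c' ∧ y • b = d' then (1 : ℤ) else 0) = 1 := by
      intro y
      rw [Finset.sum_eq_single (y • a)]
      · rw [Finset.sum_eq_single (y • b)]
        · simp
        · intro d' _ hd'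
          rw [if_neg]
          rintro ⟨_, h⟩
          exact hd' h.symm
        · intro h; exact absurd (Finset.mem_univ _) h
      · intro c' _ hc'
        refine Finset.sum_eq_zero fun d' _ => ?_
        rw [if_neg]
        rintro ⟨h, _⟩
        exact hc' h.symm
      · intro h; exact absurd (Finset.mem_univ _) h
    have h3 : (Fintype.card G : ℤ) = ∑ y : G, ∑ c' : Ω, ∑ d' : Ω,
        (if y • a = c' ∧ y • b = d' then (1 : ℤ) else 0) := by
      rw [Finset.sum_congr rfl fun y _ => h1 y]; simp
    rw [h3, Finset.sum_comm]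
    refine Finset.sum_congr rfl fun c' _ => ?_
    rw [Finset.sum_comm]
  have hrow : ∀ c' : Ω, ∑ d' : Ω, S c' d' = ((Fintype.card Ω : ℤ) - 1) * S c d := by
    intro c'
    have h1 : ∀ d' : Ω, S c' d' = (1 - if d' = c' then (1 : ℤ) else 0) * S c d := by
      intro d'
      by_cases h : d' = c'
      · rw [if_pos h, h, hdiag]; ring
      · rw [if_neg h, hconst c' d' (Ne.symm h)]; ring
    rw [Finset.sum_congr rfl fun d' _ => h1 d', ← Finset.sum_mul, Finset.sum_sub_distrib,
      Finset.sum_ite_eq']
    simp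
  rw [htot, Finset.sum_congr rfl fun c' _ => hrow c']
  simp only [Finset.sum_const, Finset.card_univ, nsmul_eq_mul]
  ring

/-- the number of elements that move `a` to `c` -/
lemma trans_one (h1 : ∀ a c : Ω, ∃ g : G, g • a = c) (a c : Ω) :
    (Fintype.card Ω : ℤ) * ∑ y : G, (if y • a = c then (1 : ℤ) else 0) = Fintype.card G := by
  classical
  have hconst : ∀ c' : Ω, ∑ y : G, (if y • a = c' then (1 : ℤ) else 0) =
      ∑ y : G, (if y • a = c then (1 : ℤ) else 0) := by
    intro c'
    obtain ⟨k, hk⟩ := h1 c' c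
    refine Fintype.sum_equiv (Equiv.mulLeft k) _ _ fun y => ?_
    have e : (Equiv.mulLeft k) y = k * y := rfl
    rw [e]
    have e2 : ((k * y) • a = c) ↔ (y • a = c') := by
      rw [mul_smul, ← hk, smul_left_cancel_iff]
    simp only [e2]
  have h3 : (Fintype.card G : ℤ) = ∑ c' : Ω, ∑ y : G, (if y • a = c' then (1 : ℤ) else 0) := by
    rw [Finset.sum_comm]
    simp
  rw [h3, Finset.sum_congr rfl fun c' _ => hconst c']
  simp [Finset.card_univ]

/-- the second moment -/
lemma sum_fx_ag (h1 : ∀ a c : Ω, ∃ g : G, g • a = c) (h2 : TT G Ω) (g : G)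
    (hn : 2 ≤ Fintype.card Ω) :
    ((Fintype.card Ω : ℤ) - 1) * ∑ y : G, fx Ω y * ag Ω g y =
      Fintype.card G * ((Fintype.card Ω : ℤ) - 2 + fx Ω g) := by
  classical
  set n : ℤ := (Fintype.card Ω : ℤ) with hnn
  have hn0 : (n : ℤ) ≠ 0 := by rw [hnn]; positivity
  have e1 : ∑ y : G, fx Ω y * ag Ω g y = ∑ a : Ω, ∑ b : Ω, ∑ y : G,
      (if y • a = a ∧ y • b = g • b then (1 : ℤ) else 0) := by
    have h3 : ∀ y : G, fx Ω y * ag Ω g y = ∑ a : Ω, ∑ b : Ω,
        (if y • a = a ∧ y • b = g • b then (1 : ℤ) else 0) := by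
      intro y
      rw [fx_eq, ag_eq, Finset.sum_mul_sum]
      refine Finset.sum_congr rfl fun a _ => Finset.sum_congr rfl fun b _ => ?_
      by_cases h : y • a = a <;> by_cases h' : y • b = g • b <;> simp [h, h']
    rw [Finset.sum_congr rfl fun y _ => h3 y, Finset.sum_comm]
    refine Finset.sum_congr rfl fun a _ => ?_
    rw [Finset.sum_comm]
  -- value of one pair
  have key : ∀ a b : Ω, n * (n - 1) * ∑ y : G,
      (if y • a = a ∧ y • b = g • b then (1 : ℤ) else 0) =
      Fintype.card G * ((if b = a then (if g • a = a then (n - 1) else 0) else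
        (if g • b = a then 0 else 1))) := by
    intro a b
    by_cases hab : b = a
    · subst hab
      rw [if_pos rfl]
      by_cases hga : g • b = b
      · rw [if_pos hga]
        have := trans_one h1 b b
        have e2 : ∑ y : G, (if y • b = b ∧ y • b = g • b then (1 : ℤ) else 0) =
            ∑ y : G, (if y • b = b then (1 : ℤ) else 0) :=
          Finset.sum_congr rfl fun y _ => by
            by_cases h : y • b = b
            · rw [if_pos h, if_pos ⟨h, by rw [h, hga]⟩]
            · rw [if_neg h, if_neg (fun h' => h h'.1)]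
        rw [e2, ← this]
        ring
      · rw [if_neg hga, mul_zero]
        have e2 : ∑ y : G, (if y • b = b ∧ y • b = g • b then (1 : ℤ) else 0) = 0 :=
          Finset.sum_eq_zero fun y _ => by
            rw [if_neg]
            rintro ⟨h, h'⟩
            exact hga (h'.symm.trans h)
        rw [e2, mul_zero]
    · rw [if_neg hab]
      by_cases hgb : g • b = a
      · rw [if_pos hgb, mul_zero]
        have e2 : ∑ y : G, (if y • a = a ∧ y • b = g • b then (1 : ℤ) else 0) = 0 :=
          Finset.sum_eq_zero fun y _ => by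
            rw [if_neg]
            rintro ⟨h, h'⟩
            have h7 : y • b = y • a := h'.trans (hgb.trans h.symm)
            exact hab ((smul_left_cancel_iff y).1 h7)
        rw [e2, mul_zero]
      · rw [if_neg hgb, mul_one]
        exact trans_pair h2 (Ne.symm hab) (Ne.symm hgb)
  have hsum : n * (n - 1) * ∑ y : G, fx Ω y * ag Ω g y =
      Fintype.card G * (n * (n - 2 + fx Ω g)) := by
    rw [e1, Finset.mul_sum]
    have h3 : ∀ a : Ω, n * (n - 1) * ∑ b : Ω, ∑ y : G,
        (if y • a = a ∧ y • b = g • b then (1 : ℤ) else 0) =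
        Fintype.card G * (n - 2 + (if g • a = a then n else 0)) := by
      intro a
      rw [Finset.mul_sum, Finset.sum_congr rfl fun b _ => key a b, ← Finset.mul_sum]
      congr 1
      have h4 : ∀ b : Ω, (if b = a then (if g • a = a then (n - 1) else 0) else
          (if g • b = a then (0 : ℤ) else 1)) =
          1 - (if b = g⁻¹ • a then (1 : ℤ) else 0) - (if b = a then (1 : ℤ) else 0) +
            (if b = a then (if g • a = a then n else 0) else 0) := by
        intro b
        have e3 : (b = g⁻¹ • a) ↔ (g • b = a) := by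
          constructor
          · rintro rfl; rw [smul_inv_smul]
          · intro h; rw [← h, inv_smul_smul]
        by_cases hb : b = a
        · subst hb
          by_cases hg : g • b = b
          · simp only [e3, hg, if_true]; ring
          · simp only [e3, hg, if_true, if_false]; ring
        · by_cases hg : g • b = a
          · simp only [e3, hg, hb, if_true, if_false]; ring
          · simp only [e3, hg, hb, if_false]; ring
      rw [Finset.sum_congr rfl fun b _ => h4 b, Finset.sum_add_distrib, Finset.sum_sub_distrib,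
        Finset.sum_sub_distrib, Finset.sum_ite_eq', Finset.sum_ite_eq', Finset.sum_ite_eq']
      simp only [Finset.mem_univ, if_true, Finset.sum_const, Finset.card_univ, nsmul_eq_mul, mul_one]
      rw [← hnn]
      ring
    rw [Finset.sum_congr rfl fun a _ => h3 a, ← Finset.mul_sum]
    congr 1
    rw [Finset.sum_add_distrib, fx_eq]
    simp only [Finset.sum_const, Finset.card_univ, nsmul_eq_mul]
    rw [← hnn]
    have h5 : ∑ a : Ω, (if g • a = a then n else (0 : ℤ)) =
        n * ∑ a : Ω, (if g • a = a then (1 : ℤ) else 0) := by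
      rw [Finset.mul_sum]
      exact Finset.sum_congr rfl fun a _ => by split_ifs <;> simp
    rw [h5]
    ring
  have h6 : n * ((n - 1) * ∑ y : G, fx Ω y * ag Ω g y) =
      n * (Fintype.card G * (n - 2 + fx Ω g)) := by
    rw [← mul_assoc, hsum]; ring
  exact mul_left_cancel₀ hn0 h6

lemma smul_iff_ag (g y : G) (a : Ω) : (y⁻¹ * g) • a = a ↔ y • a = g • a := by
  rw [mul_smul, inv_smul_eq_iff]
  exact eq_comm

/-- the substitution `y ↦ g * y⁻¹` exchanges the two numbers -/
lemma fx_subst (g y : G) : fx Ω (g * y⁻¹) = ag Ω g y := by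
  unfold fx ag
  norm_cast
  refine Finset.card_bij (fun a _ => y⁻¹ • a) ?_ ?_ ?_
  · intro a ha
    simp only [Finset.mem_filter, Finset.mem_univ, true_and] at ha ⊢
    rw [smul_inv_smul, ← mul_smul]
    exact ha.symm
  · intro a _ b _ h
    exact (smul_left_cancel_iff _).1 h
  · intro b hb
    simp only [Finset.mem_filter, Finset.mem_univ, true_and] at hb
    refine ⟨y • b, ?_, inv_smul_smul y b⟩
    simp only [Finset.mem_filter, Finset.mem_univ, true_and]
    rw [mul_smul, inv_smul_smul, hb]

lemma ag_subst (g y : G) : ag Ω g (g * y⁻¹) = fx Ω y := by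
  unfold fx ag
  congr 2
  ext a
  simp only [Finset.mem_filter, Finset.mem_univ, true_and]
  rw [mul_smul, smul_left_cancel_iff, inv_smul_eq_iff]
  exact eq_comm

lemma sum_subst (g : G) (F : ℤ → ℤ → ℤ) :
    ∑ y : G, F (fx Ω y) (ag Ω g y) = ∑ y : G, F (ag Ω g y) (fx Ω y) := by
  refine Fintype.sum_equiv ((Equiv.inv G).trans (Equiv.mulLeft g)) _ _ fun y => ?_
  have e : ((Equiv.inv G).trans (Equiv.mulLeft g)) y = g * y⁻¹ := rfl
  rw [e, ag_subst, fx_subst]

lemma fx_conj (k y : G) : fx Ω (k * y * k⁻¹) = fx Ω y := by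
  unfold fx
  norm_cast
  refine Finset.card_bij (fun a _ => k⁻¹ • a) ?_ ?_ ?_
  · intro a ha
    simp only [Finset.mem_filter, Finset.mem_univ, true_and] at ha ⊢
    rw [eq_inv_smul_iff, ← mul_smul, ← mul_smul]
    simpa only [mul_assoc] using ha
  · intro a _ b _ h
    exact (smul_left_cancel_iff _).1 h
  · intro b hb
    simp only [Finset.mem_filter, Finset.mem_univ, true_and] at hb
    refine ⟨k • b, ?_, inv_smul_smul k b⟩
    simp only [Finset.mem_filter, Finset.mem_univ, true_and]
    rw [mul_smul, inv_smul_smul, mul_smul, hb]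

lemma fx_eq_zero {y : G} : fx Ω y = 0 ↔ ∀ a : Ω, y • a ≠ a := by
  unfold fx
  rw [Nat.cast_eq_zero, Finset.card_eq_zero, Finset.filter_eq_empty_iff]
  simp

lemma ag_eq_zero {g y : G} : ag Ω g y = 0 ↔ ∀ a : Ω, y • a ≠ g • a := by
  unfold ag
  rw [Nat.cast_eq_zero, Finset.card_eq_zero, Finset.filter_eq_empty_iff]
  simp

/-- the numbers of factorisations, and the identity between them -/
theorem identity (h1 : ∀ a c : Ω, ∃ g : G, g • a = c) (h2 : TT G Ω) (g : G)
    (hn : 2 ≤ Fintype.card Ω) :
    ((Fintype.card Ω : ℤ) - 1) *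
      (∑ y : G, (if fx Ω y = 0 ∧ ag Ω g y = 0 then (1 : ℤ) else 0) -
        ∑ y : G, (if fx Ω y = 0 ∨ ag Ω g y = 0 then (0 : ℤ) else (fx Ω y - 1) * (ag Ω g y - 1))) =
      (fx Ω g - 1) * (2 * ∑ y : G, (if fx Ω y = 0 then (1 : ℤ) else 0) - Fintype.card G) := by
  classical
  have i1 : ∑ y : G, ag Ω g y = Fintype.card G := by
    have hn0 : (Fintype.card Ω : ℤ) ≠ 0 := by positivity
    apply mul_left_cancel₀ hn0
    have h3 : ∑ y : G, ag Ω g y = ∑ a : Ω, ∑ y : G, (if y • a = g • a then (1 : ℤ) else 0) := by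
      rw [Finset.sum_comm]
      exact Finset.sum_congr rfl fun y _ => ag_eq g y
    rw [h3, Finset.mul_sum, Finset.sum_congr rfl fun a _ => trans_one h1 a (g • a)]
    simp [Finset.card_univ]
  have i2 : ∑ y : G, fx Ω y = Fintype.card G := by
    rw [← i1]
    exact (sum_subst g fun a _ => a)
  have i3 := sum_fx_ag h1 h2 g hn
  have i4 : ((Fintype.card Ω : ℤ) - 1) * ∑ y : G, (if fx Ω y = 0 then (1 : ℤ) else 0) * ag Ω g y
      = ((Fintype.card Ω : ℤ) - fx Ω g) * ∑ y : G, (if fx Ω y = 0 then (1 : ℤ) else 0) := by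
    refine sum_ag_class h2 (fun y => if fx Ω y = 0 then (1 : ℤ) else 0) (fun k y => ?_)
      (fun y hy => ?_) g
    · simp only [fx_conj]
    · by_contra hcon
      apply hy
      rw [if_neg]
      intro h0
      exact hcon (fx_eq_zero.1 h0)
  have i5 : ∑ y : G, (if ag Ω g y = 0 then (1 : ℤ) else 0) * fx Ω y =
      ∑ y : G, (if fx Ω y = 0 then (1 : ℤ) else 0) * ag Ω g y :=
    sum_subst g fun a b => (if b = 0 then (1 : ℤ) else 0) * a
  have i6 : ∑ y : G, (if ag Ω g y = 0 then (1 : ℤ) else 0) =
      ∑ y : G, (if fx Ω y = 0 then (1 : ℤ) else 0) :=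
    sum_subst g fun a b => (if b = 0 then (1 : ℤ) else 0)
  have i7 : ∑ y : G, (1 : ℤ) = Fintype.card G := by simp
  have dec : ∑ y : G, (if fx Ω y = 0 ∧ ag Ω g y = 0 then (1 : ℤ) else 0) -
        ∑ y : G, (if fx Ω y = 0 ∨ ag Ω g y = 0 then (0 : ℤ) else (fx Ω y - 1) * (ag Ω g y - 1)) =
      - ∑ y : G, fx Ω y * ag Ω g y + ∑ y : G, fx Ω y + ∑ y : G, ag Ω g y
      - ∑ y : G, (if ag Ω g y = 0 then (1 : ℤ) else 0) * fx Ω y
      - ∑ y : G, (if fx Ω y = 0 then (1 : ℤ) else 0) * ag Ω g y
      - ∑ y : G, (1 : ℤ) + ∑ y : G, (if fx Ω y = 0 then (1 : ℤ) else 0)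
      + ∑ y : G, (if ag Ω g y = 0 then (1 : ℤ) else 0) := by
    simp only [← Finset.sum_sub_distrib, ← Finset.sum_add_distrib, ← Finset.sum_neg_distrib]
    refine Finset.sum_congr rfl fun y _ => ?_
    by_cases ha : fx Ω y = 0 <;> by_cases hb : ag Ω g y = 0
    · simp [ha, hb]
    · simp [ha, hb]
    · simp [ha, hb]
    · simp [ha, hb]; ring
  rw [dec, i1, i2, i5, i6, i7]
  linear_combination (-1 : ℤ) * i3 - 2 * i4

theorem main (h1 : ∀ a c : Ω, ∃ g : G, g • a = c) (h2 : TT G Ω) (hn : 3 ≤ Fintype.card Ω) (g : G) :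
    (∃ y : G, fx Ω y = 0 ∧ ag Ω g y = 0) ↔
      (fx Ω g ≠ 1 ∨ ∃ y : G, 2 ≤ fx Ω y ∧ 2 ≤ ag Ω g y) := by
  classical
  set n : ℤ := (Fintype.card Ω : ℤ) with hnn
  have hn3 : (3 : ℤ) ≤ n := by rw [hnn]; exact_mod_cast hn
  set N : ℤ := ∑ y : G, (if fx Ω y = 0 ∧ ag Ω g y = 0 then (1 : ℤ) else 0) with hN
  set R : ℤ := ∑ y : G, (if fx Ω y = 0 ∨ ag Ω g y = 0 then (0 : ℤ) else
    (fx Ω y - 1) * (ag Ω g y - 1)) with hR
  set D : ℤ := ∑ y : G, (if fx Ω y = 0 then (1 : ℤ) else 0) with hD
  have hid : (n - 1) * (N - R) = (fx Ω g - 1) * (2 * D - Fintype.card G) :=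
    identity h1 h2 g (by omega)
  have hN0 : 0 ≤ N := Finset.sum_nonneg fun y _ => by split_ifs <;> norm_num
  have hterm : ∀ y : G, 0 ≤ (if fx Ω y = 0 ∨ ag Ω g y = 0 then (0 : ℤ) else
      (fx Ω y - 1) * (ag Ω g y - 1)) := by
    intro y
    split_ifs with h
    · exact le_refl _
    · push Not at h
      have h3 := fx_nonneg (Ω := Ω) y
      have h4 := ag_nonneg (Ω := Ω) g y
      have h5 : 1 ≤ fx Ω y := by have := h.1; omega
      have h6 : 1 ≤ ag Ω g y := by have := h.2; omega
      exact mul_nonneg (by linarith) (by linarith)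
  have hR0 : 0 ≤ R := Finset.sum_nonneg fun y _ => hterm y
  have hNpos : 0 < N ↔ ∃ y : G, fx Ω y = 0 ∧ ag Ω g y = 0 := by
    constructor
    · intro h
      by_contra hcon
      push Not at hcon
      have : N = 0 := Finset.sum_eq_zero fun y _ => by
        rw [if_neg]
        rintro ⟨h3, h4⟩
        exact hcon y h3 h4
      omega
    · rintro ⟨y, hy⟩
      refine lt_of_lt_of_le ?_ (Finset.single_le_sum (f := fun y : G =>
        (if fx Ω y = 0 ∧ ag Ω g y = 0 then (1 : ℤ) else 0)) (fun z _ => by
          try dsimp only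
          split_ifs <;> norm_num) (Finset.mem_univ y))
      try dsimp only
      rw [if_pos hy]
      norm_num
  have hRpos : 0 < R ↔ ∃ y : G, 2 ≤ fx Ω y ∧ 2 ≤ ag Ω g y := by
    constructor
    · intro h
      by_contra hcon
      push Not at hcon
      have : R = 0 := Finset.sum_eq_zero fun y _ => by
        split_ifs with h3
        · rfl
        · push Not at h3
          have h4 := fx_nonneg (Ω := Ω) y
          have h5 := ag_nonneg (Ω := Ω) g y
          by_cases h6 : 2 ≤ fx Ω y
          · have h7 := hcon y h6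
            have h8 : ag Ω g y = 1 := by have := h3.2; omega
            rw [h8]; ring
          · have h8 : fx Ω y = 1 := by have := h3.1; omega
            rw [h8]; ring
      omega
    · rintro ⟨y, hy1, hy2⟩
      refine lt_of_lt_of_le ?_ (Finset.single_le_sum (f := fun y : G =>
        (if fx Ω y = 0 ∨ ag Ω g y = 0 then (0 : ℤ) else
          (fx Ω y - 1) * (ag Ω g y - 1))) (fun z _ => hterm z) (Finset.mem_univ y))
      try dsimp only
      rw [if_neg (by omega)]
      exact mul_pos (by linarith) (by linarith)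
  rw [← hNpos, ← hRpos]
  rcases lt_trichotomy (fx Ω g) 1 with hk | hk | hk
  · -- no fixed points
    have hk0 : fx Ω g = 0 := by have := fx_nonneg (Ω := Ω) g; omega
    refine ⟨fun _ => Or.inl (by omega), fun _ => ?_⟩
    by_contra hcon
    have hN1 : N = 0 := by omega
    -- the number of elements with both numbers positive
    set M : ℤ := ∑ y : G, (if fx Ω y = 0 ∨ ag Ω g y = 0 then (0 : ℤ) else 1) with hM
    have hMeq : M = Fintype.card G - 2 * D + N := by
      have i6 : ∑ y : G, (if ag Ω g y = 0 then (1 : ℤ) else 0) = D :=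
        sum_subst g fun a b => (if b = 0 then (1 : ℤ) else 0)
      have i7 : ∑ y : G, (1 : ℤ) = Fintype.card G := by simp
      have : M = ∑ y : G, (1 : ℤ) - D - ∑ y : G, (if ag Ω g y = 0 then (1 : ℤ) else 0) + N := by
        rw [hM, hD, hN]
        simp only [← Finset.sum_sub_distrib, ← Finset.sum_add_distrib]
        refine Finset.sum_congr rfl fun y _ => ?_
        by_cases ha : fx Ω y = 0 <;> by_cases hb : ag Ω g y = 0 <;> simp [ha, hb]
      rw [this, i6, i7]
      ring
    have hMpos : 0 < M := by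
      -- two points
      have hcard : ∃ b a : Ω, b ≠ a ∧ g • b ≠ a := by
        have hne : Nonempty Ω := Fintype.card_pos_iff.1 (by omega)
        obtain ⟨a⟩ := hne
        by_contra hcon2
        push Not at hcon2
        have hsub : (Finset.univ : Finset Ω) ⊆ {a, g⁻¹ • a} := by
          intro b _
          by_cases hb : b = a
          · simp [hb]
          · have := hcon2 b a hb
            rw [Finset.mem_insert, Finset.mem_singleton]
            right
            rw [← this, inv_smul_smul]
        have := Finset.card_le_card hsub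
        rw [Finset.card_univ] at this
        have h3 : ({a, g⁻¹ • a} : Finset Ω).card ≤ 2 := Finset.card_le_two
        omega
      obtain ⟨b, a, hba, hgba⟩ := hcard
      obtain ⟨y, hy1, hy2⟩ := h2 a b a (g • b) (Ne.symm hba) (Ne.symm hgba)
      refine lt_of_lt_of_le ?_ (Finset.single_le_sum (f := fun y : G =>
        (if fx Ω y = 0 ∨ ag Ω g y = 0 then (0 : ℤ) else 1)) (fun z _ => by
          try dsimp only
          split_ifs <;> norm_num) (Finset.mem_univ y))
      try dsimp only
      rw [if_neg]
      · norm_num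
      · rintro (h | h)
        · exact fx_eq_zero.1 h a hy1
        · exact ag_eq_zero.1 h b hy2
    rw [hk0, hN1] at hid
    have h9 : (n - 1) * R = - M := by
      rw [hMeq, hN1]
      linear_combination (-1 : ℤ) * hid
    have h10 : 0 ≤ (n - 1) * R := mul_nonneg (by linarith) hR0
    linarith
  · -- one fixed point
    rw [hk] at hid
    have h9 : N = R := by
      have h10 : (n - 1) * (N - R) = 0 := by rw [hid]; ring
      rcases mul_eq_zero.1 h10 with h | h
      · omega
      · linarith
    rw [h9]
    constructor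
    · intro h; exact Or.inr h
    · rintro (h | h)
      · exact absurd hk h
      · exact h
  · -- at least two fixed points
    refine ⟨fun _ => Or.inl (by omega), fun _ => ?_⟩
    -- derangements exist
    have hDpos : 0 < D := by
      by_contra hcon
      have hD0 : D = 0 := le_antisymm (not_lt.1 hcon)
        (Finset.sum_nonneg fun y _ => by split_ifs <;> norm_num)
      have hall : ∀ y : G, 1 ≤ fx Ω y := by
        intro y
        by_contra hy
        have hy0 : fx Ω y = 0 := by have := fx_nonneg (Ω := Ω) y; omega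
        have : (1 : ℤ) ≤ D := by
          refine le_trans ?_ (Finset.single_le_sum (f := fun y : G =>
            (if fx Ω y = 0 then (1 : ℤ) else 0)) (fun z _ => by
              try dsimp only
              split_ifs <;> norm_num) (Finset.mem_univ y))
          try dsimp only
          rw [if_pos hy0]
        omega
      have i2 : ∑ y : G, fx Ω y = Fintype.card G := by
        have i1 : ∑ y : G, ag Ω g y = Fintype.card G := by
          have hn0 : (Fintype.card Ω : ℤ) ≠ 0 := by positivity
          apply mul_left_cancel₀ hn0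
          have h3 : ∑ y : G, ag Ω g y =
              ∑ a : Ω, ∑ y : G, (if y • a = g • a then (1 : ℤ) else 0) := by
            rw [Finset.sum_comm]
            exact Finset.sum_congr rfl fun y _ => ag_eq g y
          rw [h3, Finset.mul_sum, Finset.sum_congr rfl fun a _ => trans_one h1 a (g • a)]
          simp [Finset.card_univ]
        rw [← i1]
        exact (sum_subst g fun a _ => a)
      have hone : fx Ω (1 : G) = n := by
        unfold fx
        rw [hnn]
        simp [Finset.card_univ]
      have hlt : ∑ y : G, (1 : ℤ) < ∑ y : G, fx Ω y :=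
        Finset.sum_lt_sum (fun y _ => hall y) ⟨1, Finset.mem_univ _, by rw [hone]; linarith⟩
      rw [i2] at hlt
      simp at hlt
    -- first moment
    have i4 : (n - 1) * ∑ y : G, (if fx Ω y = 0 then (1 : ℤ) else 0) * ag Ω g y
        = (n - fx Ω g) * D := by
      refine sum_ag_class h2 (fun y => if fx Ω y = 0 then (1 : ℤ) else 0) (fun k y => ?_)
        (fun y hy => ?_) g
      · simp only [fx_conj]
      · by_contra hcon
        apply hy
        rw [if_neg]
        intro h0
        exact hcon (fx_eq_zero.1 h0)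
    by_contra hcon
    have hN1 : N = 0 := by omega
    have hno : ∀ y : G, fx Ω y = 0 → 1 ≤ ag Ω g y := by
      intro y hy
      by_contra hy2
      have hy0 : ag Ω g y = 0 := by have := ag_nonneg (Ω := Ω) g y; omega
      exact hcon (hNpos.2 ⟨y, hy, hy0⟩)
    have hge : D ≤ ∑ y : G, (if fx Ω y = 0 then (1 : ℤ) else 0) * ag Ω g y := by
      refine Finset.sum_le_sum fun y _ => ?_
      split_ifs with h
      · rw [one_mul]; exact hno y h
      · simp
    have h9 : (n - 1) * D ≤ (n - fx Ω g) * D := by
      rw [← i4]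
      exact mul_le_mul_of_nonneg_left hge (by linarith)
    nlinarith

end

end Pool.Agent.Helper87.TwoTrans
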